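import Pool.Agent.L7h71.UN.Asm
import Pool.Agent.L7h66.UN.Perf0
import Pool.Agent.L7h66.UN.Fin
import Pool.Agent.L7h93.UN.FrpFam
import Pool.Agent.L7h51.UN.Int
import Pool.Agent.L7h51.UN.Cell0
import Pool.Agent.L7h77.UN.Nam
import Pool.Agent.L7h24.UN.Pro
import Pool.Agent.L7h24.UN.Adj
import Pool.Agent.L7h60.UN.Proc
import Pool.Agent.L7h89.UN.Stb1
import Pool.Agent.L7h89.UN.Cell1
import Pool.Agent.L7h69.UN.Stpa
import Pool.Agent.L7h69.UN.Rich
import Pool.Agent.L7h23.UN.Stpb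
import Pool.Agent.L7h23.UN.Stb2
import Pool.Agent.L7h42.UN.Step
import Pool.Agent.L7h46.UN.Bnd
import Pool.Agent.L7h73.UN.SprSym
import Pool.Agent.L7h73.UN.Perf
import Pool.Agent.L7h73.UN.Fq
import Pool.Agent.L7h68.UN.StaMain

set_option autoImplicit false

/-!
# Project UN: all parts together
-/

namespace Pool.Agent.L7h71.UN

theorem perf : S_PERF := L7h73.UN.s_PERF L7h66.UN.s_PERF0

theorem pro : S_PRO := L7h24.UN.s_PRO

theorem adj : S_ADJ := L7h24.UN.s_ADJ pro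

theorem spr : S_SPR := L7h73.UN.s_SPR adj

theorem sym : S_SYM := L7h73.UN.s_SYM pro adj

theorem com : S_COM := s_COM perf (L7h69.UN.s_STPA pro spr) L7h23.UN.s_STPB

theorem star : S_STAR :=
  s_STAR perf (L7h68.UN.s_STA pro sym) (L7h23.UN.s_STB2 L7h89.UN.s_STB1) com

theorem step : S_STEP := L7h42.UN.s_STEP sym

theorem main : S_MAIN :=
  s_MAIN perf com star (L7h93.UN.s_FAM L7h93.UN.s_FRP) (L7h69.UN.s_RICH sym)
    (L7h46.UN.s_BND sym L7h51.UN.s_INT perf) (L7h60.UN.s_PROC L7h93.UN.s_FRP step)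
    (L7h51.UN.s_CELL0 L7h51.UN.s_INT) L7h89.UN.s_CELL1 L7h73.UN.s_FQ

theorem nam : S_NAM := L7h77.UN.s_NAM main L7h66.UN.s_PERF0

theorem cls : S_CLS := s_CLS nam L7h66.UN.s_FIN

end Pool.Agent.L7h71.UN

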