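import Pool.Agent.L7h71.UN.Cod

set_option autoImplicit false

/-!
# Project UN: first-order theories
-/

namespace Pool.Agent.L7h71.UN

open Set Filter Function FirstOrder FirstOrder.Language
open Pool.Agent.H533R2.VO (RS RIso Dich)

section syn

variable {L : FirstOrder.Language.{0, 0}} {α : Type}

/-- Formulas with existential quantifiers in front of a universal formula. -/
inductive IsEU : ∀ {n : ℕ}, L.BoundedFormula α n → Prop
  | of_isUniversal {n : ℕ} {φ : L.BoundedFormula α n} (h : φ.IsUniversal) : IsEU φ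
  | ex {n : ℕ} {φ : L.BoundedFormula α (n + 1)} (h : IsEU φ) : IsEU φ.ex

/-- partial embeddings -/
structure PE (L : FirstOrder.Language.{0, 0}) (M N : Type) [L.Structure M] [L.Structure N]
    (X : Finset N) (e : N → M) : Prop where
  inj : InjOn e X
  rel : ∀ (n : ℕ) (R : L.Relations n) (v : Fin n → N), (∀ j, v j ∈ X) →
    (Structure.RelMap R (e ∘ v) ↔ Structure.RelMap R v)

variable {M N : Type} [L.Structure M] [L.Structure N] [L.IsRelational]

theorem term_real {β : Type} (t : L.Term β) (e : N → M) (w : β → N) :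
    t.realize (e ∘ w) = e (t.realize w) := by
  cases t with
  | var x => rfl
  | func f ts => exact isEmptyElim f

theorem term_mem {β : Type} (t : L.Term β) {X : Finset N} {w : β → N} (hw : ∀ i, w i ∈ X) :
    t.realize w ∈ X := by
  cases t with
  | var x => exact hw x
  | func f ts => exact isEmptyElim f

theorem qf_real {n : ℕ} {φ : L.BoundedFormula α n} (h : φ.IsQF) {X : Finset N} {e : N → M}
    (he : PE L M N X e) {v : α → N} {xs : Fin n → N} (hv : ∀ i, v i ∈ X) (hxs : ∀ i, xs i ∈ X) :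
    φ.Realize (e ∘ v) (e ∘ xs) ↔ φ.Realize v xs := by
  have hw : ∀ i, Sum.elim v xs i ∈ X := by
    rintro (i | i)
    · exact hv i
    · exact hxs i
  induction h with
  | falsum => exact Iff.rfl
  | of_isAtomic hA =>
    cases hA with
    | equal t₁ t₂ =>
      simp only [BoundedFormula.realize_bdEqual, ← Sum.comp_elim, term_real]
      exact ⟨fun h => he.inj (term_mem _ hw) (term_mem _ hw) h, fun h => by rw [h]⟩
    | rel R ts =>
      simp only [BoundedFormula.realize_rel, ← Sum.comp_elim, term_real]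
      exact he.rel _ R _ fun j => term_mem _ hw
  | imp _ _ ih1 ih2 => simp only [BoundedFormula.realize_imp, ih1, ih2]

theorem univ_real {n : ℕ} {φ : L.BoundedFormula α n} (h : φ.IsUniversal)
    {Q : (N → M) → Prop} (hex : ∀ X : Finset N, ∃ e, Q e ∧ PE L M N X e)
    {v : α → N} {xs : Fin n → N} {X₀ : Finset N} (hv : ∀ i, v i ∈ X₀) (hxs : ∀ i, xs i ∈ X₀)
    (hr : ∀ X : Finset N, X₀ ⊆ X → ∀ e, Q e → PE L M N X e → φ.Realize (e ∘ v) (e ∘ xs)) :
    φ.Realize v xs := by
  classical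
  induction h generalizing X₀ with
  | of_isQF hQF =>
    obtain ⟨e, h1, h2⟩ := hex X₀
    exact (qf_real hQF h2 hv hxs).1 (hr X₀ subset_rfl e h1 h2)
  | all _ ih =>
    rw [BoundedFormula.realize_all]
    intro a
    refine ih (X₀ := insert a X₀) (fun i => Finset.mem_insert_of_mem (hv i)) ?_ ?_
    · intro i
      refine Fin.lastCases ?_ (fun j => ?_) i
      · rw [Fin.snoc_last]
        exact Finset.mem_insert_self _ _
      · rw [Fin.snoc_castSucc]
        exact Finset.mem_insert_of_mem (hxs j)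
    · intro X hX e h1 h2
      have h3 := hr X ((Finset.subset_insert _ _).trans hX) e h1 h2
      rw [BoundedFormula.realize_all] at h3
      have h4 := h3 (e a)
      rw [Fin.comp_snoc]
      exact h4

end syn

section eu

variable {L : FirstOrder.Language.{0, 0}} [L.IsRelational] {α : Type}

theorem eu_real {n : ℕ} {φ : L.BoundedFormula α n} (h : IsEU φ) (S : L.Structure ℕ)
    {v : α → ℕ} {xs : Fin n → ℕ} {F₀ : Finset ℕ} (hv : ∀ i, v i ∈ F₀) (hxs : ∀ i, xs i ∈ F₀)
    (hr : @BoundedFormula.Realize L ℕ S α n φ v xs) :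
    ∃ F₁ : Finset ℕ, F₀ ⊆ F₁ ∧ ∀ S' : L.Structure ℕ,
      (∀ X : Finset ℕ, ∃ e : ℕ → ℕ, (∀ m ∈ F₁, e m = m) ∧ @PE L ℕ ℕ S S' X e) →
      @BoundedFormula.Realize L ℕ S' α n φ v xs := by
  classical
  induction h generalizing F₀ with
  | of_isUniversal hU =>
    refine ⟨F₀, subset_rfl, fun S' hS' => ?_⟩
    refine @univ_real L α ℕ ℕ S S' _ _ _ hU (fun e => ∀ m ∈ F₀, e m = m) hS' v xs F₀ hv hxs ?_
    intro X hX e h1 _
    have e1 : e ∘ v = v := funext fun i => h1 _ (hv i)
    have e2 : e ∘ xs = xs := funext fun i => h1 _ (hxs i)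
    rw [e1, e2]
    exact hr
  | ex _ ih =>
    rw [@BoundedFormula.realize_ex] at hr
    obtain ⟨b, hb⟩ := hr
    obtain ⟨F₁, h1, h2⟩ := ih (F₀ := insert b F₀) (fun i => Finset.mem_insert_of_mem (hv i)) (by
      intro i
      refine Fin.lastCases ?_ (fun j => ?_) i
      · rw [Fin.snoc_last]
        exact Finset.mem_insert_self _ _
      · rw [Fin.snoc_castSucc]
        exact Finset.mem_insert_of_mem (hxs j)) hb
    refine ⟨F₁, (Finset.subset_insert _ _).trans h1, fun S' hS' => ?_⟩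
    rw [@BoundedFormula.realize_ex]
    exact ⟨b, h2 S' hS'⟩

omit [L.IsRelational] in
theorem sent_iff (S : L.Structure ℕ) (φ : L.Sentence) (v : Empty → ℕ) (xs : Fin 0 → ℕ) :
    @Sentence.Realize L ℕ S φ ↔ @BoundedFormula.Realize L ℕ S Empty 0 φ v xs :=
  iff_of_eq (congrArg₂ (@BoundedFormula.Realize L ℕ S Empty 0 φ) (Subsingleton.elim _ _)
    (Subsingleton.elim _ _))

theorem eu_theory (T : L.Theory) (hfin : {φ ∈ T | ¬ φ.IsUniversal}.Finite)
    (hEU : ∀ φ ∈ T, IsEU φ) (S : L.Structure ℕ) (hS : @Theory.Model L ℕ S T) :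
    ∃ F : Finset ℕ, ∀ S' : L.Structure ℕ,
      (∀ X : Finset ℕ, ∃ e : ℕ → ℕ, (∀ m ∈ F, e m = m) ∧ @PE L ℕ ℕ S S' X e) →
      @Theory.Model L ℕ S' T := by
  classical
  have h1 : ∀ φ ∈ T, ∃ F : Finset ℕ, ∀ S' : L.Structure ℕ,
      (∀ X : Finset ℕ, ∃ e : ℕ → ℕ, (∀ m ∈ F, e m = m) ∧ @PE L ℕ ℕ S S' X e) →
      @Sentence.Realize L ℕ S' φ := by
    intro φ hφ
    obtain ⟨F, -, h⟩ := eu_real (α := Empty) (hEU φ hφ) S (v := default) (xs := default) (F₀ := ∅)
      (fun i => i.elim) (fun i => i.elim0)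
      ((sent_iff S φ _ _).1 (@Theory.realize_sentence_of_mem L ℕ S T hS φ hφ))
    exact ⟨F, fun S' hS' => (sent_iff S' φ _ _).2 (h S' hS')⟩
  choose! F hF using h1
  refine ⟨hfin.toFinset.biUnion F, fun S' hS' => ?_⟩
  refine (@Theory.model_iff L ℕ S' T).2 fun φ hφ => ?_
  by_cases hU : φ.IsUniversal
  · refine (sent_iff S' φ default default).2 (@univ_real L Empty ℕ ℕ S S' _ _ _ hU (fun _ => True)
      (fun X => ?_) default default ∅ (fun i => i.elim) (fun i => i.elim0) (fun X _ e _ _ => ?_))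
    · obtain ⟨e, -, h⟩ := hS' X
      exact ⟨e, trivial, h⟩
    · exact (sent_iff S φ _ _).1 (@Theory.realize_sentence_of_mem L ℕ S T hS φ hφ)
  · refine hF φ hφ S' fun X => ?_
    obtain ⟨e, h1, h2⟩ := hS' X
    refine ⟨e, fun m hm => h1 m ?_, h2⟩
    exact Finset.mem_biUnion.2 ⟨φ, hfin.mem_toFinset.2 ⟨hφ, hU⟩, hm⟩

open Pool.Agent.R617.VT in
/-- The theorem for theories. -/
theorem fo_univ (hC : S_CLS) [Countable (Σ n, L.Relations n)] (r : ℕ)
    (hr : ∀ n, r < n → IsEmpty (L.Relations n)) (T : L.Theory)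
    (hfin : {φ ∈ T | ¬ φ.IsUniversal}.Finite) (hEU : ∀ φ ∈ T, IsEU φ) :
    Pool.Agent.W889.FO.Vaught L T := by
  obtain ⟨e, he⟩ := Countable.exists_injective_nat (Σ n, L.Relations n)
  have ha : ∀ i, ar e i ≤ r := by
    intro i
    by_cases h : ∃ p, e p = i
    · obtain ⟨p, rfl⟩ := h
      rw [ar_e he]
      by_contra hlt
      exact (hr p.1 (not_le.1 hlt)).elim p.2
    · rw [ar_not h]
      exact Nat.zero_le _
  refine vaught_of he (cls_str hC ha (Md he T) (md_meas he T) (fun x y h hx => md_iso he h hx) ?_)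
  rintro x ⟨hx1, hx2⟩
  obtain ⟨F, hF⟩ := eu_theory T hfin hEU (dc he x) hx2
  refine ⟨F, fun y hy => ⟨fun i hi v => ?_, hF (dc he y) fun X => ?_⟩⟩
  · obtain ⟨f, -, -, -, h⟩ := hy (Finset.univ.image v)
    rw [← h i v fun j => Finset.mem_image_of_mem _ (Finset.mem_univ j)]
    exact hx1 i hi _
  · obtain ⟨f, h1, h2, -, h4⟩ := hy X
    refine ⟨f, h2, @PE.mk L ℕ ℕ (dc he x) (dc he y) X f h1 fun n R v hv => ?_⟩
    rw [rel_dc, rel_dc, ← h4 _ _ fun j => hv _]
    exact Iff.rfl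

end eu

end Pool.Agent.L7h71.UN
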