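import Pool.Agent.L7h71.UN.Stm
import Pool.Agent.R617.VT.Trans

set_option autoImplicit false

/-!
# Project UN: classes of relational structures of bounded arity
-/

namespace Pool.Agent.L7h71.UN

open Set Filter Function
open Pool.Agent.H533R2.VO (RS RIso Dich)

variable {a : ℕ → ℕ} {r : ℕ}

/-- Every finite piece of `y` which contains `F` embeds in `x` over `F`. -/
def LocR (F : Finset ℕ) (x y : RS a) : Prop :=
  ∀ X : Finset ℕ, ∃ e : ℕ → ℕ, InjOn e X ∧ (∀ n ∈ F, e n = n) ∧ (∀ n ∈ X, e n ∈ F → n ∈ F) ∧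
    ∀ (i : ℕ) (v : Fin (a i) → ℕ), (∀ j, v j ∈ X) → x i (e ∘ v) = y i v

/-- coding by one function -/
def phi (ha : ∀ i, a i ≤ r) (x : RS a) : St r (ℕ → Bool) ℕ :=
  fun t i => x i fun j => t (Fin.castLE (ha i) j)

/-- extension of a tuple by `0` -/
def xt (r : ℕ) {n : ℕ} (v : Fin n → ℕ) : Fin r → ℕ :=
  fun k => if h : (k : ℕ) < n then v ⟨k, h⟩ else 0

theorem xt_cast {n : ℕ} (h : n ≤ r) (v : Fin n → ℕ) : (fun j => xt r v (Fin.castLE h j)) = v := by
  funext j
  simp [xt]

/-- decoding -/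
def psi (c : St r (ℕ → Bool) ℕ) : RS a := fun i v => c (xt r v) i

/-- the value of the `i`-th relation depends only on the first `a i` coordinates -/
def Coh (a : ℕ → ℕ) (c : St r (ℕ → Bool) ℕ) : Prop :=
  ∀ (i : ℕ) (t t' : Fin r → ℕ), (∀ k : Fin r, (k : ℕ) < a i → t k = t' k) → c t i = c t' i

theorem coh_phi (ha : ∀ i, a i ≤ r) (x : RS a) : Coh a (phi ha x) := by
  intro i t t' h
  unfold phi
  congr 1
  funext j
  exact h _ j.2

theorem psi_phi (ha : ∀ i, a i ≤ r) (x : RS a) : psi (phi ha x) = x := by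
  funext i v
  show x i (fun j => xt r v (Fin.castLE (ha i) j)) = x i v
  rw [xt_cast]

theorem coh_iso {c c' : St r (ℕ → Bool) ℕ} (hc : Coh a c) (h : Iso c c') : Coh a c' := by
  obtain ⟨e, he⟩ := h
  have h1 : ∀ t, c' t = c (e.symm ∘ t) := by
    intro t
    rw [← he]
    congr 1
    funext k
    simp
  intro i t t' ht
  rw [h1, h1]
  refine hc i _ _ fun k hk => ?_
  show e.symm (t k) = e.symm (t' k)
  rw [ht k hk]

theorem iso_psi {c c' : St r (ℕ → Bool) ℕ} (hc' : Coh a c')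
    (h : Iso c c') : RIso (psi c : RS a) (psi c') := by
  obtain ⟨e, he⟩ := h
  refine ⟨e, fun i v => ?_⟩
  show c' (xt r (⇑e ∘ v)) i = c (xt r v) i
  rw [← he]
  refine hc' i _ _ fun k hk => ?_
  simp [xt, hk]

theorem iso_of_psi (ha : ∀ i, a i ≤ r) {c c' : St r (ℕ → Bool) ℕ} (hc : Coh a c) (hc' : Coh a c')
    (h : RIso (psi c : RS a) (psi c')) : Iso c c' := by
  obtain ⟨e, he⟩ := h
  refine ⟨e, fun t => ?_⟩
  funext i
  have h1 := he i (fun j => t (Fin.castLE (ha i) j))
  have h2 : c t i = psi (a := a) c i (fun j => t (Fin.castLE (ha i) j)) := by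
    refine hc i _ _ fun k hk => ?_
    simp [xt, hk, Fin.castLE]
  have h3 : c' (e ∘ t) i = psi (a := a) c' i (⇑e ∘ fun j => t (Fin.castLE (ha i) j)) := by
    refine hc' i _ _ fun k hk => ?_
    simp [xt, hk, Fin.castLE]
  rw [h2, h3]
  exact h1

theorem iso_phi (ha : ∀ i, a i ≤ r) {x y : RS a} (h : RIso x y) : Iso (phi ha x) (phi ha y) := by
  refine iso_of_psi ha (coh_phi ha x) (coh_phi ha y) ?_
  rwa [psi_phi, psi_phi]

theorem iso_symm {c c' : St r (ℕ → Bool) ℕ} (h : Iso c c') : Iso c' c := by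
  obtain ⟨e, he⟩ := h
  refine ⟨e.symm, fun x => ?_⟩
  rw [← he]
  congr 1
  funext k
  simp

theorem locR_of {F : Finset ℕ} {c c' : St r (ℕ → Bool) ℕ} (hc : Coh a c)
    (h : LocOver F c c') : Coh a c' ∧ LocR (a := a) F (psi c) (psi c') := by
  classical
  constructor
  · intro i t t' ht
    obtain ⟨e, -, -, -, h4⟩ := h (Finset.univ.image t ∪ Finset.univ.image t')
    rw [← h4 t fun k => Finset.mem_union_left _ (Finset.mem_image_of_mem _ (Finset.mem_univ k)),
      ← h4 t' fun k => Finset.mem_union_right _ (Finset.mem_image_of_mem _ (Finset.mem_univ k))]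
    refine hc i _ _ fun k hk => ?_
    show e (t k) = e (t' k)
    rw [ht k hk]
  · intro X
    obtain ⟨e, h1, h2, h3, h4⟩ := h (insert 0 X)
    refine ⟨e, h1.mono (by simp), h2, fun n hn => h3 n (by simp [hn]), fun i v hv => ?_⟩
    show c (xt r (e ∘ v)) i = c' (xt r v) i
    rw [← h4 (xt r v) fun k => ?_]
    · refine hc i _ _ fun k hk => ?_
      simp [xt, hk]
    · unfold xt
      split_ifs with hk
      · exact Finset.mem_insert_of_mem (hv _)
      · exact Finset.mem_insert_self _ _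

theorem cls_str (hC : S_CLS) (ha : ∀ i, a i ≤ r) (B : Set (RS a)) (hB : MeasurableSet B)
    (hiso : ∀ x y, RIso x y → x ∈ B → y ∈ B)
    (hloc : ∀ x ∈ B, ∃ F : Finset ℕ, ∀ y, LocR F x y → y ∈ B) : Dich B := by
  let B' : Set (St r (ℕ → Bool) ℕ) := {c | Coh a c ∧ psi c ∈ B}
  have hm : Measurable (psi : St r (ℕ → Bool) ℕ → RS a) :=
    measurable_pi_lambda _ fun i => measurable_pi_lambda _ fun v =>
      (measurable_pi_apply i).comp (measurable_pi_apply (xt r v))
  have hB' : MeasurableSet B' := by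
    have h0 : B' = {c : St r (ℕ → Bool) ℕ | Coh a c} ∩ psi ⁻¹' B := rfl
    rw [h0]
    refine MeasurableSet.inter ?_ (hm hB)
    have h1 : {c : St r (ℕ → Bool) ℕ | Coh a c} = ⋂ (i : ℕ), ⋂ (t : Fin r → ℕ),
        ⋂ (t' : Fin r → ℕ), {c | (∀ k : Fin r, (k : ℕ) < a i → t k = t' k) → c t i = c t' i} := by
      ext c
      simp only [mem_iInter]
      exact Iff.rfl
    rw [h1]
    refine MeasurableSet.iInter fun i => MeasurableSet.iInter fun t =>
      MeasurableSet.iInter fun t' => ?_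
    by_cases h : ∀ k : Fin r, (k : ℕ) < a i → t k = t' k
    · have : {c : St r (ℕ → Bool) ℕ | (∀ k : Fin r, (k : ℕ) < a i → t k = t' k) →
          c t i = c t' i} = {c | c t i = c t' i} := by
        ext c
        exact ⟨fun h' => h' h, fun h' _ => h'⟩
      rw [this]
      exact measurableSet_eq_fun ((measurable_pi_apply i).comp (measurable_pi_apply t))
        ((measurable_pi_apply i).comp (measurable_pi_apply t'))
    · have : {c : St r (ℕ → Bool) ℕ | (∀ k : Fin r, (k : ℕ) < a i → t k = t' k) →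
          c t i = c t' i} = univ := by
        ext c
        exact ⟨fun _ => trivial, fun _ h' => absurd h' h⟩
      rw [this]
      exact MeasurableSet.univ
  have hP : PolishSpace (ℕ → Bool) := by
    have h1 : SecondCountableTopology (ℕ → Bool) := inferInstance
    have h2 : TopologicalSpace.IsCompletelyMetrizableSpace (ℕ → Bool) := inferInstance
    exact {}
  rcases hC r (ℕ → Bool) B' hB'
    (fun c hc c' h => ⟨coh_iso hc.1 h, hiso _ _ (iso_psi (coh_iso hc.1 h) h) hc.2⟩)
    (fun c hc => by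
      obtain ⟨F, hF⟩ := hloc _ hc.2
      refine ⟨F, fun c' h => ?_⟩
      obtain ⟨h1, h2⟩ := locR_of hc.1 h
      exact ⟨h1, hF _ h2⟩) with ⟨C, hC1, hC2⟩ | ⟨g, hg1, hg2, hg3⟩
  · left
    by_cases hne : C.Nonempty
    · obtain ⟨f, hf⟩ := hC1.exists_eq_range hne
      refine ⟨fun n => psi (f n), fun x hx => ?_⟩
      obtain ⟨c, hc, hi⟩ := hC2 (phi ha x) ⟨coh_phi ha x, by rw [psi_phi]; exact hx⟩
      rw [hf] at hc
      obtain ⟨n, rfl⟩ := hc
      refine ⟨n, ?_⟩
      have := iso_psi (a := a) (coh_phi ha x) hi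
      rwa [psi_phi] at this
    · refine ⟨fun _ _ _ => true, fun x hx => ?_⟩
      obtain ⟨c, hc, -⟩ := hC2 (phi ha x) ⟨coh_phi ha x, by rw [psi_phi]; exact hx⟩
      exact absurd ⟨c, hc⟩ hne
  · right
    refine ⟨fun c => psi (g c), ?_, fun c => (hg2 c).2, fun c d h =>
      hg3 c d (iso_of_psi ha (hg2 c).1 (hg2 d).1 h)⟩
    refine continuous_pi fun i => continuous_pi fun v => ?_
    exact (continuous_apply i).comp ((continuous_apply (xt r v)).comp hg1)

end Pool.Agent.L7h71.UN
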