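import Pool.Agent.L7h71.UN.Fs
import Pool.Agent.L7h71.UN.Cod
import Pool.Agent.H565R2.FO2.USec

set_option autoImplicit false

/-!
# Project UN: languages of unbounded arity, lifting from finite reducts
-/

namespace Pool.Agent.L7h71.UN

open Set Filter Function
open Pool.Agent.H533R2.VO (RS RIso Dich)

variable {a : ℕ → ℕ}

/-- The reduct of `x` to the relations with number in `I` is cellular. -/
def CellR (I : Set ℕ) (x : RS a) : Prop :=
  ∃ (d m : ℕ) (sz : Fin m → ℕ) (e : ℕ ≃ Dom d m sz), ∀ (σ : Fin m → Equiv.Perm ℕ),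
    ∀ i ∈ I, ∀ v : Fin (a i) → ℕ, x i (fun j => e.symm (act σ (e (v j)))) = x i v

/-- The closure of the set of the copies of `x` over `F`. -/
def Cl (F : Finset ℕ) (x : RS a) : Set (RS a) :=
  closure {y | ∃ e : Equiv.Perm ℕ, (∀ m ∈ F, e m = m) ∧
    ∀ (i : ℕ) (v : Fin (a i) → ℕ), y i v = x i (e ∘ v)}

/-- the code of the reduct to the first `n` relations -/
def ph {r n : ℕ} (h : ∀ i : Fin n, a i ≤ r) (x : RS a) : St r (Fin n → Bool) ℕ :=
  fun t i => x i fun j => t (Fin.castLE (h i) j)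

theorem continuous_ph {r n : ℕ} (h : ∀ i : Fin n, a i ≤ r) : Continuous (ph h) :=
  continuous_pi fun t => continuous_pi fun i =>
    (continuous_apply (fun j => t (Fin.castLE (h i) j))).comp (continuous_apply (i : ℕ))

theorem iso_ph {r n : ℕ} (h : ∀ i : Fin n, a i ≤ r) {x y : RS a} (hxy : RIso x y) :
    Iso (ph h x) (ph h y) := by
  obtain ⟨σ, hσ⟩ := hxy
  exact ⟨σ, fun t => funext fun i => hσ i _⟩

/-- lifting from a finite reduct -/
theorem lift (hNAM : S_NAM) (F : Finset ℕ) (x : RS a) (n : ℕ)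
    (hx : ¬ CellR {i | i < n} x) :
    ∃ g : (ℕ → Bool) → RS a, Continuous g ∧ (∀ c, g c ∈ Cl F x) ∧
      ∀ c d, RIso (g c) (g d) → c = d := by
  classical
  let r : ℕ := (Finset.range n).sup a
  have hr : ∀ i : Fin n, a i ≤ r := fun i => Finset.le_sup (Finset.mem_range.2 i.2)
  rcases hNAM r (Fin n → Bool) (ph hr x) F with hc | ⟨g, g1, g2, g3⟩
  · obtain ⟨d, m, sz, e, he⟩ := hc
    refine absurd ⟨d, m, sz, e, fun σ i hi v => ?_⟩ hx
    have h1 := congrFun (he σ (xt r v)) ⟨i, hi⟩
    have hle : a i ≤ r := hr ⟨i, hi⟩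
    have h2 : (fun j => xt r v (Fin.castLE hle j)) = v := xt_cast hle v
    have h3 : ph hr x (fun k => e.symm (act σ (e (xt r v k)))) ⟨i, hi⟩ =
        x i (fun j => e.symm (act σ (e (v j)))) := by
      show x i (fun j => e.symm (act σ (e (xt r v (Fin.castLE hle j))))) = _
      congr 1
      funext j
      rw [congrFun h2 j]
    have h4 : ph hr x (xt r v) ⟨i, hi⟩ = x i v := by
      show x i (fun j => xt r v (Fin.castLE hle j)) = _
      rw [h2]
    rw [← h3, ← h4]
    exact h1
  · have hg : Continuous g := continuous_pi fun t => (g1 t).continuous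
    let Y : Set ((ℕ → Bool) × RS a) := {p | p.2 ∈ Cl F x ∧ ph hr p.2 = g p.1}
    have hY : IsClosed Y :=
      (isClosed_closure.preimage continuous_snd).inter
        (isClosed_eq ((continuous_ph hr).comp continuous_snd) (hg.comp continuous_fst))
    have hP : PolishSpace ((ℕ → Bool) × RS a) := by
      have h1 : SecondCountableTopology ((ℕ → Bool) × RS a) := inferInstance
      have h2 : TopologicalSpace.IsCompletelyMetrizableSpace ((ℕ → Bool) × RS a) := inferInstance
      exact {}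
    have : PolishSpace Y := hY.polishSpace
    -- all points of the Cantor space are in the projection
    have hproj : ∀ c, ∃ y, (c, y) ∈ Y := by
      intro c
      have h1 : ∀ X : Finset ℕ, ∃ y ∈ Cl F x, ∀ t : Fin r → ℕ, (∀ k, t k ∈ X) →
          ph hr y t = g c t := by
        intro X
        obtain ⟨e, e1, e2, -, e4⟩ := g2 c (X ∪ F)
        obtain ⟨p, hp⟩ := perm_of_injOn e (X ∪ F) e1
        refine ⟨fun i v => x i (p ∘ v), subset_closure ⟨p, fun m hm => ?_, fun _ _ => rfl⟩,
          fun t ht => ?_⟩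
        · rw [hp m (Finset.mem_union_right _ hm), e2 m hm]
        · rw [← e4 t fun k => Finset.mem_union_left _ (ht k)]
          funext i
          show x i (p ∘ fun j => t (Fin.castLE (hr i) j)) = x i (fun j => e (t (Fin.castLE (hr i) j)))
          congr 1
          funext j
          exact hp _ (Finset.mem_union_left _ (ht _))
      choose y hy1 hy2 using h1
      let U : Ultrafilter (Finset ℕ) := Ultrafilter.of atTop
      obtain ⟨z, -, hz⟩ := isCompact_univ.ultrafilter_le_nhds (U.map y) (by simp)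
      refine ⟨z, ?_, ?_⟩
      · refine isClosed_closure.mem_of_tendsto (b := (U : Filter (Finset ℕ))) (f := y) hz
          (Eventually.of_forall fun X => hy1 X)
      · funext t
        have h2 : IsClosed {w : RS a | ph hr w t = g c t} :=
          isClosed_eq ((continuous_apply t).comp (continuous_ph hr)) continuous_const
        have h3 : ∀ᶠ X in (atTop : Filter (Finset ℕ)), Finset.univ.image t ⊆ X :=
          eventually_ge_atTop _
        have h3' : ∀ᶠ X in (U : Filter (Finset ℕ)), Finset.univ.image t ⊆ X :=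
          Ultrafilter.of_le atTop h3
        have h4 : z ∈ {w : RS a | ph hr w t = g c t} :=
          h2.mem_of_tendsto (b := (U : Filter (Finset ℕ))) (f := y) hz (h3'.mono
            fun X hX => hy2 X t fun k => hX (Finset.mem_image_of_mem _ (Finset.mem_univ k)))
        exact h4
    have hunc : ¬ (range fun p : Y => p.1.1).Countable := by
      have h1 : (range fun p : Y => p.1.1) = univ := by
        rw [eq_univ_iff_forall]
        intro c
        obtain ⟨y, hy⟩ := hproj c
        exact ⟨⟨(c, y), hy⟩, rfl⟩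
      rw [h1]
      intro h2
      have h3 : Countable (ℕ → Bool) := countable_univ_iff.1 h2
      have h4 := Cardinal.mk_le_aleph0_iff.2 h3
      rw [← Cardinal.power_def, Cardinal.mk_bool, Cardinal.mk_nat] at h4
      exact absurd h4 (not_le.2 (Cardinal.cantor _))
    obtain ⟨h, hh1, hh2⟩ := Pool.Agent.H565R2.FO2.perfect_aux (ι := Unit)
      (fun _ (p : Y) => p.1.1) (fun _ => continuous_fst.comp continuous_subtype_val)
      (fun p q => p.1.1 = q.1.1) (fun p q h _ => ⟨(), h⟩) () hunc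
    refine ⟨fun c => (h c).1.2, continuous_snd.comp (continuous_subtype_val.comp hh1),
      fun c => (h c).2.1, fun c d hcd => ?_⟩
    by_contra hne
    refine hh2 c d hne (g3 _ _ ?_)
    have h1 := iso_ph hr hcd
    rwa [(h c).2.2, (h d).2.2] at h1

/-- Isomorphism-invariant `F_σ` classes contain closures of sets of copies over finite sets. -/
theorem fsigma_cl (C : ℕ → Set (RS a)) (hC : ∀ n, IsClosed (C n))
    (hiso : ∀ x ∈ ⋃ n, C n, ∀ y, RIso x y → y ∈ ⋃ n, C n) (x : RS a) (hx : x ∈ ⋃ n, C n) :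
    ∃ F : Finset ℕ, Cl F x ⊆ ⋃ n, C n := by
  classical
  let P : Set ((ℕ → ℕ) × (ℕ → ℕ)) := {p | (∀ n, p.1 (p.2 n) = n) ∧ ∀ n, p.2 (p.1 n) = n}
  have hP : IsClosed P := by
    have key : ∀ n : ℕ, Continuous fun p : (ℕ → ℕ) × (ℕ → ℕ) => p.1 (p.2 n) := by
      intro n
      have h1 : Continuous fun q : (ℕ → ℕ) × ℕ => q.1 q.2 :=
        continuous_prod_of_discrete_right.2 fun m => continuous_apply m
      exact h1.comp (continuous_fst.prodMk ((continuous_apply n).comp continuous_snd))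
    have key' : ∀ n : ℕ, Continuous fun p : (ℕ → ℕ) × (ℕ → ℕ) => p.2 (p.1 n) := fun n =>
      (key n).comp continuous_swap
    have h1 : P = (⋂ n, {p | p.1 (p.2 n) = n}) ∩ ⋂ n, {p | p.2 (p.1 n) = n} := by
      ext p
      simp only [mem_inter_iff, mem_iInter]
      exact Iff.rfl
    rw [h1]
    exact (isClosed_iInter fun n => isClosed_eq (key n) continuous_const).inter
      (isClosed_iInter fun n => isClosed_eq (key' n) continuous_const)
  have : PolishSpace P := hP.polishSpace
  have hne : Nonempty P := ⟨⟨(id, id), fun _ => rfl, fun _ => rfl⟩⟩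
  let tr : P → RS a := fun p i v => x i (p.1.1 ∘ v)
  have htr : Continuous tr := by
    refine continuous_pi fun i => continuous_pi fun v => ?_
    have h1 : Continuous fun p : P => (p.1.1 ∘ v : Fin (a i) → ℕ) :=
      continuous_pi fun j => (continuous_apply (v j)).comp (continuous_fst.comp continuous_subtype_val)
    exact (continuous_of_discreteTopology (f := x i)).comp h1
  have hcov : ⋃ n, tr ⁻¹' C n = univ := by
    rw [← preimage_iUnion, eq_univ_iff_forall]
    intro p
    refine hiso x hx _ ⟨⟨p.1.2, p.1.1, p.2.1, p.2.2⟩, fun i v => ?_⟩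
    show x i (p.1.1 ∘ (p.1.2 ∘ v)) = x i v
    congr 1
    funext j
    exact p.2.1 (v j)
  obtain ⟨n, p₀, hp₀⟩ := nonempty_interior_of_iUnion_of_closed
    (fun n => (hC n).preimage htr) hcov
  obtain ⟨U, hU, hUeq⟩ := isOpen_induced_iff.1 (isOpen_interior (s := tr ⁻¹' C n))
  have hU0 : p₀.1 ∈ U := by
    have : p₀ ∈ Subtype.val ⁻¹' U := by rw [hUeq]; exact hp₀
    exact this
  obtain ⟨U₁, U₂, hU₁, hU₂, h1, h2, h12⟩ := isOpen_prod_iff.1 hU p₀.1.1 p₀.1.2 hU0
  obtain ⟨I₁, u₁, hu₁, hI₁⟩ := isOpen_pi_iff.1 hU₁ _ h1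
  obtain ⟨I₂, u₂, hu₂, hI₂⟩ := isOpen_pi_iff.1 hU₂ _ h2
  -- the finite condition
  have hcond : ∀ p : P, (∀ z ∈ I₁ ∪ I₂.image p₀.1.2, p.1.1 z = p₀.1.1 z) → tr p ∈ C n := by
    intro p hp
    have h3 : p ∈ interior (tr ⁻¹' C n) := by
      rw [← hUeq]
      refine h12 ⟨hI₁ fun z hz => ?_, hI₂ fun z hz => ?_⟩
      · show p.1.1 z ∈ u₁ z
        rw [hp z (Finset.mem_union_left _ hz)]
        exact (hu₁ z hz).2
      · show p.1.2 z ∈ u₂ z
        have h4 := hp (p₀.1.2 z) (Finset.mem_union_right _ (Finset.mem_image_of_mem _ hz))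
        rw [p₀.2.1 z] at h4
        have h5 := p.2.2 (p₀.1.2 z)
        rw [h4] at h5
        rw [h5]
        exact (hu₂ z hz).2
    have h6 : p ∈ tr ⁻¹' C n := interior_subset h3
    exact h6
  refine ⟨(I₁ ∪ I₂.image p₀.1.2).image p₀.1.1, fun y hy => ?_⟩
  let T : RS a → RS a := fun w i v => w i (p₀.1.1 ∘ v)
  have hT : Continuous T := continuous_pi fun i => continuous_pi fun v =>
    (continuous_apply (p₀.1.1 ∘ v)).comp (continuous_apply i)
  have h0 : T y ∈ C n := by
    have h7 : MapsTo T {y | ∃ e : Equiv.Perm ℕ,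
        (∀ m ∈ (I₁ ∪ I₂.image p₀.1.2).image p₀.1.1, e m = m) ∧
        ∀ (i : ℕ) (v : Fin (a i) → ℕ), y i v = x i (e ∘ v)} (C n) := by
      rintro w ⟨e, he1, he2⟩
      let g : Equiv.Perm ℕ := (⟨p₀.1.1, p₀.1.2, p₀.2.2, p₀.2.1⟩ : ℕ ≃ ℕ).trans e
      let p : P := ⟨(g, g.symm), fun m => g.apply_symm_apply m, fun m => g.symm_apply_apply m⟩
      have h8 : T w = tr p := by
        funext i v
        show w i (p₀.1.1 ∘ v) = x i (g ∘ v)
        rw [he2]
        rfl
      rw [h8]
      exact hcond p fun z hz => he1 _ (Finset.mem_image_of_mem _ hz)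
    have h9 := h7.closure hT hy
    rwa [(hC n).closure_eq] at h9
  refine hiso _ (mem_iUnion.2 ⟨n, h0⟩) y ⟨⟨p₀.1.1, p₀.1.2, p₀.2.2, p₀.2.1⟩, fun i v => rfl⟩

/-- The dichotomy for languages of unbounded arity. -/
theorem unbounded (hNAM : S_NAM) (C : ℕ → Set (RS a)) (hC : ∀ n, IsClosed (C n))
    (hiso : ∀ x ∈ ⋃ n, C n, ∀ y, RIso x y → y ∈ ⋃ n, C n) :
    (∃ g : (ℕ → Bool) → RS a, Continuous g ∧ (∀ c, g c ∈ ⋃ n, C n) ∧
      ∀ c d, RIso (g c) (g d) → c = d) ∨
    ∀ x ∈ ⋃ n, C n, ∀ I : Set ℕ, I.Finite → CellR I x := by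
  by_contra h
  push Not at h
  obtain ⟨h1, x, hx, I, hI, hI'⟩ := h
  obtain ⟨F, hF⟩ := fsigma_cl C hC hiso x hx
  obtain ⟨n, hn⟩ := hI.bddAbove
  have h2 : ¬ CellR {i | i < n + 1} x := by
    rintro ⟨d, m, sz, e, he⟩
    exact hI' ⟨d, m, sz, e, fun σ i hi => he σ i (Nat.lt_succ_of_le (hn hi))⟩
  obtain ⟨g, g1, g2, g3⟩ := lift hNAM F x (n + 1) h2
  obtain ⟨c, d, h3, h4⟩ := h1 g g1 fun c => hF (g2 c)
  exact h4 (g3 c d h3)

end Pool.Agent.L7h71.UN
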