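import Pool.Agent.L7h71.UN.Stm

set_option autoImplicit false

/-!
# Project UN: isomorphism-invariant `F_σ` classes
-/

namespace Pool.Agent.L7h71.UN

open Set Filter Function

theorem perm_of_injOn (f : ℕ → ℕ) (X : Finset ℕ) (hf : InjOn f X) :
    ∃ g : Equiv.Perm ℕ, ∀ n ∈ X, g n = f n := by
  have h := Equiv.Perm.isMultiplyPretransitive ℕ X.card
  let x : Fin X.card ↪ ℕ := X.equivFin.symm.toEmbedding.trans (Embedding.subtype _)
  let y : Fin X.card ↪ ℕ := ⟨fun i => f (x i), fun i j hij => x.injective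
    (hf (X.equivFin.symm i).2 (X.equivFin.symm j).2 hij)⟩
  obtain ⟨g, hg⟩ := MulAction.exists_smul_eq (Equiv.Perm ℕ) x y
  refine ⟨g, fun n hn => ?_⟩
  have h1 := DFunLike.congr_fun hg (X.equivFin ⟨n, hn⟩)
  have h2 : x (X.equivFin ⟨n, hn⟩) = n := by simp [x]
  have h3 : (g • x) (X.equivFin ⟨n, hn⟩) = g (x (X.equivFin ⟨n, hn⟩)) := rfl
  have h4 : y (X.equivFin ⟨n, hn⟩) = f (x (X.equivFin ⟨n, hn⟩)) := rfl
  rw [h3, h4, h2] at h1
  exact h1

/-- Isomorphism-invariant `F_σ` classes satisfy the condition. -/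
theorem fsigma_loc {r : ℕ} {K : Type} [TopologicalSpace K] (C : ℕ → Set (St r K ℕ))
    (hC : ∀ n, IsClosed (C n)) (hiso : ∀ M ∈ ⋃ n, C n, ∀ N, Iso M N → N ∈ ⋃ n, C n)
    (M : St r K ℕ) (hM : M ∈ ⋃ n, C n) :
    ∃ F : Finset ℕ, ∀ N, LocOver F M N → N ∈ ⋃ n, C n := by
  classical
  let P : Set ((ℕ → ℕ) × (ℕ → ℕ)) := {p | (∀ n, p.1 (p.2 n) = n) ∧ ∀ n, p.2 (p.1 n) = n}
  have hP : IsClosed P := by
    have key : ∀ n : ℕ, Continuous fun p : (ℕ → ℕ) × (ℕ → ℕ) => p.1 (p.2 n) := by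
      intro n
      have h1 : Continuous fun q : (ℕ → ℕ) × ℕ => q.1 q.2 :=
        continuous_prod_of_discrete_right.2 fun m => continuous_apply m
      exact h1.comp (continuous_fst.prodMk ((continuous_apply n).comp continuous_snd))
    have key' : ∀ n : ℕ, Continuous fun p : (ℕ → ℕ) × (ℕ → ℕ) => p.2 (p.1 n) := fun n =>
      (key n).comp continuous_swap
    have h1 : P = (⋂ n, {p | p.1 (p.2 n) = n}) ∩ ⋂ n, {p | p.2 (p.1 n) = n} := by
      ext p
      simp only [mem_inter_iff, mem_iInter]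
      exact Iff.rfl
    rw [h1]
    exact (isClosed_iInter fun n => isClosed_eq (key n) continuous_const).inter
      (isClosed_iInter fun n => isClosed_eq (key' n) continuous_const)
  have : PolishSpace P := hP.polishSpace
  have hne : Nonempty P := ⟨⟨(id, id), fun _ => rfl, fun _ => rfl⟩⟩
  let tr : P → St r K ℕ := fun p x => M (p.1.1 ∘ x)
  have htr : Continuous tr := by
    refine continuous_pi fun x => ?_
    have h1 : Continuous fun p : P => (p.1.1 ∘ x : Fin r → ℕ) :=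
      continuous_pi fun i => (continuous_apply (x i)).comp (continuous_fst.comp continuous_subtype_val)
    exact (continuous_of_discreteTopology (f := M)).comp h1
  have hcov : ⋃ n, tr ⁻¹' C n = univ := by
    rw [← preimage_iUnion, eq_univ_iff_forall]
    intro p
    refine hiso M hM _ ⟨⟨p.1.2, p.1.1, p.2.1, p.2.2⟩, fun x => ?_⟩
    show M (p.1.1 ∘ (p.1.2 ∘ x)) = M x
    congr 1
    funext i
    exact p.2.1 (x i)
  obtain ⟨n, p₀, hp₀⟩ := nonempty_interior_of_iUnion_of_closed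
    (fun n => (hC n).preimage htr) hcov
  obtain ⟨U, hU, hUeq⟩ := isOpen_induced_iff.1 (isOpen_interior (s := tr ⁻¹' C n))
  have hU0 : p₀.1 ∈ U := by
    have : p₀ ∈ Subtype.val ⁻¹' U := by rw [hUeq]; exact hp₀
    exact this
  obtain ⟨U₁, U₂, hU₁, hU₂, h1, h2, h12⟩ := isOpen_prod_iff.1 hU p₀.1.1 p₀.1.2 hU0
  obtain ⟨I₁, u₁, hu₁, hI₁⟩ := isOpen_pi_iff.1 hU₁ _ h1
  obtain ⟨I₂, u₂, hu₂, hI₂⟩ := isOpen_pi_iff.1 hU₂ _ h2
  -- the finite condition
  have hcond : ∀ p : P, (∀ z ∈ I₁ ∪ I₂.image p₀.1.2, p.1.1 z = p₀.1.1 z) → tr p ∈ C n := by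
    intro p hp
    have h3 : p ∈ interior (tr ⁻¹' C n) := by
      rw [← hUeq]
      refine h12 ⟨hI₁ fun z hz => ?_, hI₂ fun z hz => ?_⟩
      · show p.1.1 z ∈ u₁ z
        rw [hp z (Finset.mem_union_left _ hz)]
        exact (hu₁ z hz).2
      · show p.1.2 z ∈ u₂ z
        have h4 := hp (p₀.1.2 z) (Finset.mem_union_right _ (Finset.mem_image_of_mem _ hz))
        rw [p₀.2.1 z] at h4
        have h5 := p.2.2 (p₀.1.2 z)
        rw [h4] at h5
        rw [h5]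
        exact (hu₂ z hz).2
    have h6 : p ∈ tr ⁻¹' C n := interior_subset h3
    exact h6
  refine ⟨(I₁ ∪ I₂.image p₀.1.2).image p₀.1.1, fun N hN => ?_⟩
  have h0 : (fun x => N (p₀.1.1 ∘ x)) ∈ C n := by
    rw [← (hC n).closure_eq, mem_closure_iff]
    intro O hO hON
    obtain ⟨J, w, hw, hJ⟩ := isOpen_pi_iff.1 hO _ hON
    let X : Finset ℕ := J.biUnion fun x => Finset.univ.image x
    let Z : Finset ℕ := I₁ ∪ I₂.image p₀.1.2
    obtain ⟨e, e1, e2, -, e4⟩ := hN ((X ∪ Z).image p₀.1.1)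
    have hinj : InjOn (e ∘ p₀.1.1) ↑(X ∪ Z) := by
      intro a ha b hb hab
      have h3 := e1 (Finset.mem_coe.2 (Finset.mem_image_of_mem _ ha))
        (Finset.mem_coe.2 (Finset.mem_image_of_mem _ hb)) hab
      have h4 := congrArg p₀.1.2 h3
      rwa [p₀.2.2, p₀.2.2] at h4
    obtain ⟨g, hg⟩ := perm_of_injOn (e ∘ p₀.1.1) (X ∪ Z) hinj
    let p : P := ⟨(g, g.symm), fun m => g.apply_symm_apply m, fun m => g.symm_apply_apply m⟩
    refine ⟨tr p, hJ fun x hx => ?_, hcond p fun z hz => ?_⟩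
    · have hxX : ∀ i, x i ∈ X := fun i =>
        Finset.mem_biUnion.2 ⟨x, hx, Finset.mem_image_of_mem _ (Finset.mem_univ i)⟩
      have h3 : tr p x = N (p₀.1.1 ∘ x) := by
        show M (g ∘ x) = _
        have h4 : (g : ℕ → ℕ) ∘ x = e ∘ (p₀.1.1 ∘ x) := by
          funext i
          exact hg _ (Finset.mem_union_left _ (hxX i))
        rw [h4]
        exact e4 _ fun i => Finset.mem_image_of_mem _ (Finset.mem_union_left _ (hxX i))
      rw [h3]
      exact (hw x hx).2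
    · show g z = p₀.1.1 z
      rw [hg z (Finset.mem_union_right _ hz)]
      exact e2 _ (Finset.mem_image_of_mem _ hz)
  refine hiso _ (mem_iUnion.2 ⟨n, h0⟩) N ⟨⟨p₀.1.1, p₀.1.2, p₀.2.2, p₀.2.1⟩, fun x => rfl⟩

/-- The theorem for `F_σ` classes. -/
theorem fsigma (hCLS : S_CLS) (r : ℕ) (K : Type) [TopologicalSpace K] [PolishSpace K]
    (C : ℕ → Set (St r K ℕ)) (hC : ∀ n, IsClosed (C n))
    (hiso : ∀ M ∈ ⋃ n, C n, ∀ N, Iso M N → N ∈ ⋃ n, C n) :
    (∃ D : Set (St r K ℕ), D.Countable ∧ ∀ M ∈ ⋃ n, C n, ∃ N ∈ D, Iso N M) ∨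
    (∃ g : (ℕ → Bool) → St r K ℕ, Continuous g ∧ (∀ c, g c ∈ ⋃ n, C n) ∧
      ∀ c d, Iso (g c) (g d) → c = d) := by
  let _ : MeasurableSpace K := borel K
  have : BorelSpace K := ⟨rfl⟩
  exact hCLS r K (⋃ n, C n) (MeasurableSet.iUnion fun n => (hC n).measurableSet) hiso
    (fsigma_loc C hC hiso)

end Pool.Agent.L7h71.UN
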