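import Pool.Agent.L7h71.UN.Lift
import Pool.Agent.L7h71.UN.Fo

set_option autoImplicit false

/-!
# Project UN: first-order theories in relational languages of unbounded arity
-/

namespace Pool.Agent.L7h71.UN

open Set Filter Function FirstOrder FirstOrder.Language
open Pool.Agent.H533R2.VO (RS RIso Dich)

/-! ### `F_σ` sets -/

section fs

variable {X : Type} [TopologicalSpace X]

/-- `A` is a countable union of closed sets. -/
def Fs (A : Set X) : Prop := ∃ C : ℕ → Set X, (∀ n, IsClosed (C n)) ∧ A = ⋃ n, C n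

theorem Fs.of_closed {A : Set X} (h : IsClosed A) : Fs A :=
  ⟨fun _ => A, fun _ => h, (iUnion_const A).symm⟩

theorem Fs.iUnion {A : ℕ → Set X} (h : ∀ n, Fs (A n)) : Fs (⋃ n, A n) := by
  choose C hC hA using h
  refine ⟨fun k => C (Nat.unpair k).1 (Nat.unpair k).2, fun k => hC _ _, ?_⟩
  ext x
  simp only [mem_iUnion]
  constructor
  · rintro ⟨n, hn⟩
    rw [hA n, mem_iUnion] at hn
    obtain ⟨m, hm⟩ := hn
    exact ⟨Nat.pair n m, by rwa [Nat.unpair_pair]⟩
  · rintro ⟨k, hk⟩
    refine ⟨(Nat.unpair k).1, ?_⟩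
    rw [hA, mem_iUnion]
    exact ⟨_, hk⟩

theorem Fs.inter {A B : Set X} (h : Fs A) (h' : Fs B) : Fs (A ∩ B) := by
  obtain ⟨C, hC, rfl⟩ := h
  obtain ⟨D, hD, rfl⟩ := h'
  refine ⟨fun k => C (Nat.unpair k).1 ∩ D (Nat.unpair k).2, fun k => (hC _).inter (hD _), ?_⟩
  ext x
  simp only [mem_inter_iff, mem_iUnion]
  constructor
  · rintro ⟨⟨n, hn⟩, ⟨m, hm⟩⟩
    exact ⟨Nat.pair n m, by rw [Nat.unpair_pair]; exact ⟨hn, hm⟩⟩
  · rintro ⟨k, h1, h2⟩
    exact ⟨⟨_, h1⟩, ⟨_, h2⟩⟩

theorem Fs.finite_inter {ι : Type} {s : Set ι} (hs : s.Finite) {A : ι → Set X}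
    (h : ∀ i ∈ s, Fs (A i)) : Fs (⋂ i ∈ s, A i) := by
  induction s, hs using Set.Finite.induction_on with
  | empty => simpa using Fs.of_closed isClosed_univ
  | @insert i s _ _ ih =>
    rw [biInter_insert]
    exact (h i (mem_insert _ _)).inter (ih fun j hj => h j (mem_insert_of_mem _ hj))

end fs

section fo

open Pool.Agent.R617.VT

variable {L : FirstOrder.Language.{0, 0}} [L.IsRelational]
  {e : (Σ n, L.Relations n) → ℕ} (he : Function.Injective e) {α : Type}

theorem term_const {β : Type} (t : L.Term β) (w : β → ℕ) :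
    ∃ b : ℕ, ∀ S : L.Structure ℕ, @Term.realize L ℕ S β w t = b := by
  cases t with
  | var x => exact ⟨w x, fun S => rfl⟩
  | func f ts => exact isEmptyElim f

theorem qf_clopen {n : ℕ} {φ : L.BoundedFormula α n} (h : φ.IsQF) (v : α → ℕ)
    (xs : Fin n → ℕ) :
    IsClopen {x : RS (ar e) | @BoundedFormula.Realize L ℕ (dc he x) α n φ v xs} := by
  induction h with
  | falsum =>
    have h1 : {x : RS (ar e) | @BoundedFormula.Realize L ℕ (dc he x) α n
        (BoundedFormula.falsum) v xs} = ∅ := by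
      ext x
      exact ⟨fun h => h.elim, fun h => h.elim⟩
    exact h1 ▸ isClopen_empty
  | of_isAtomic hA =>
    cases hA with
    | equal t₁ t₂ =>
      obtain ⟨b₁, h₁⟩ := term_const t₁ (Sum.elim v xs)
      obtain ⟨b₂, h₂⟩ := term_const t₂ (Sum.elim v xs)
      by_cases hb : b₁ = b₂
      · have h1 : {x : RS (ar e) | @BoundedFormula.Realize L ℕ (dc he x) α n
            (t₁.bdEqual t₂) v xs} = univ := by
          ext x
          refine ⟨fun _ => trivial, fun _ => ?_⟩
          refine (@BoundedFormula.realize_bdEqual L ℕ (dc he x) α n v xs t₁ t₂).2 ?_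
          rw [h₁, h₂, hb]
        exact h1 ▸ isClopen_univ
      · have h1 : {x : RS (ar e) | @BoundedFormula.Realize L ℕ (dc he x) α n
            (t₁.bdEqual t₂) v xs} = ∅ := by
          ext x
          refine ⟨fun h => hb ?_, fun h => h.elim⟩
          have h2 := (@BoundedFormula.realize_bdEqual L ℕ (dc he x) α n v xs t₁ t₂).1 h
          rwa [h₁, h₂] at h2
        exact h1 ▸ isClopen_empty
    | @rel k R ts =>
      choose b hb using fun i => term_const (ts i) (Sum.elim v xs)
      have h1 : {x : RS (ar e) | @BoundedFormula.Realize L ℕ (dc he x) α n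
          (R.boundedFormula ts) v xs} =
          {x | x (e ⟨k, R⟩) (fun j => b (Fin.cast (ar_e he ⟨k, R⟩) j)) = true} := by
        ext x
        refine (@BoundedFormula.realize_rel L ℕ (dc he x) α n v xs k R ts).trans ?_
        rw [show (fun i => @Term.realize L ℕ (dc he x) _ (Sum.elim v xs) (ts i)) = b from
          funext fun i => hb i (dc he x)]
        exact Iff.rfl
      rw [h1]
      exact (isClopen_discrete {true}).preimage ((continuous_apply _).comp (continuous_apply _))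
  | @imp φ₁ φ₂ _ _ ih1 ih2 =>
    have h1 : {x : RS (ar e) | @BoundedFormula.Realize L ℕ (dc he x) α n
        (φ₁.imp φ₂) v xs} = {x | @BoundedFormula.Realize L ℕ (dc he x) α n φ₁ v xs}ᶜ ∪
        {x | @BoundedFormula.Realize L ℕ (dc he x) α n φ₂ v xs} := by
      ext x
      exact imp_iff_not_or
    rw [h1]
    exact ih1.compl.union ih2

theorem univ_closed {n : ℕ} {φ : L.BoundedFormula α n} (h : φ.IsUniversal) (v : α → ℕ)
    (xs : Fin n → ℕ) :
    IsClosed {x : RS (ar e) | @BoundedFormula.Realize L ℕ (dc he x) α n φ v xs} := by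
  induction h with
  | of_isQF hQF => exact (qf_clopen he hQF v xs).isClosed
  | @all n φ _ ih =>
    have h1 : {x : RS (ar e) | @BoundedFormula.Realize L ℕ (dc he x) α n φ.all v xs} =
        ⋂ b : ℕ, {x | @BoundedFormula.Realize L ℕ (dc he x) α (n + 1) φ v (Fin.snoc xs b)} := by
      ext x
      rw [mem_iInter]
      exact Iff.rfl
    rw [h1]
    exact isClosed_iInter fun b => ih _

theorem eu_fs {n : ℕ} {φ : L.BoundedFormula α n} (h : IsEU φ) (v : α → ℕ)
    (xs : Fin n → ℕ) :
    Fs {x : RS (ar e) | @BoundedFormula.Realize L ℕ (dc he x) α n φ v xs} := by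
  induction h with
  | of_isUniversal hU => exact Fs.of_closed (univ_closed he hU v xs)
  | @ex n φ _ ih =>
    have h1 : {x : RS (ar e) | @BoundedFormula.Realize L ℕ (dc he x) α n φ.ex v xs} =
        ⋃ b : ℕ, {x | @BoundedFormula.Realize L ℕ (dc he x) α (n + 1) φ v (Fin.snoc xs b)} := by
      ext x
      rw [mem_iUnion]
      exact @BoundedFormula.realize_ex L ℕ (dc he x) α n φ v xs
    rw [h1]
    exact Fs.iUnion fun b => ih _

theorem md_fs (T : L.Theory) (hfin : {φ ∈ T | ¬ φ.IsUniversal}.Finite)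
    (hEU : ∀ φ ∈ T, IsEU φ) : Fs (Md he T) := by
  have h1 : Md he T = ({x | Nrm x} ∩ ⋂ φ ∈ {φ ∈ T | φ.IsUniversal},
      {x : RS (ar e) | @Sentence.Realize L ℕ (dc he x) φ}) ∩
      ⋂ φ ∈ {φ ∈ T | ¬ φ.IsUniversal}, {x : RS (ar e) | @Sentence.Realize L ℕ (dc he x) φ} := by
    ext x
    simp only [mem_inter_iff, mem_iInter]
    constructor
    · rintro ⟨hx, hm⟩
      have h2 := (@Theory.model_iff L ℕ (dc he x) T).1 hm
      exact ⟨⟨hx, fun φ hφ => h2 φ hφ.1⟩, fun φ hφ => h2 φ hφ.1⟩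
    · rintro ⟨⟨hx, h2⟩, h3⟩
      refine ⟨hx, (@Theory.model_iff L ℕ (dc he x) T).2 fun φ hφ => ?_⟩
      by_cases hU : φ.IsUniversal
      · exact h2 φ ⟨hφ, hU⟩
      · exact h3 φ ⟨hφ, hU⟩
  have hs : ∀ (φ : L.Sentence), {x : RS (ar e) | @Sentence.Realize L ℕ (dc he x) φ} =
      {x : RS (ar e) | @BoundedFormula.Realize L ℕ (dc he x) Empty 0 φ default default} := by
    intro φ
    ext x
    exact sent_iff (dc he x) φ _ _
  rw [h1]
  refine Fs.inter (Fs.of_closed (IsClosed.inter ?_ ?_)) (Fs.finite_inter hfin fun φ hφ => ?_)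
  · have h2 : {x : RS (ar e) | Nrm x} = ⋂ i : ℕ, ⋂ (_ : ¬ ∃ p, e p = i),
        ⋂ v : Fin (ar e i) → ℕ, {x | x i v = false} := by
      ext x
      simp only [mem_iInter]
      exact Iff.rfl
    rw [h2]
    exact isClosed_iInter fun i => isClosed_iInter fun _ => isClosed_iInter fun v =>
      isClosed_eq ((continuous_apply v).comp (continuous_apply i)) continuous_const
  · refine isClosed_iInter fun φ => isClosed_iInter fun hφ => ?_
    rw [hs]
    exact univ_closed he hφ.2 _ _
  · rw [hs]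
    exact eu_fs he (hEU φ hφ.1) _ _

/-- The reduct of the structure to the symbols in `I` is cellular. -/
def CellF (I : Set (Σ n, L.Relations n)) (S : L.Structure ℕ) : Prop :=
  ∃ (d m : ℕ) (sz : Fin m → ℕ) (f : ℕ ≃ Dom d m sz), ∀ (σ : Fin m → Equiv.Perm ℕ),
    ∀ p ∈ I, ∀ v : Fin p.1 → ℕ,
      (@Structure.RelMap L ℕ S p.1 p.2 (fun j => f.symm (act σ (f (v j)))) ↔
        @Structure.RelMap L ℕ S p.1 p.2 v)

/-- Languages of unbounded arity: there is a perfect family of models, or all finite reducts of all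
models are cellular. -/
theorem fo_unb (hNAM : S_NAM) [Countable (Σ n, L.Relations n)] (T : L.Theory)
    (hfin : {φ ∈ T | ¬ φ.IsUniversal}.Finite) (hEU : ∀ φ ∈ T, IsEU φ) :
    (∃ f : (ℕ → Bool) → L.Structure ℕ, (∀ x, @Theory.Model L ℕ (f x) T) ∧
      (∀ x y, Nonempty (@FirstOrder.Language.Equiv L ℕ ℕ (f x) (f y)) → x = y) ∧
      (∀ (n : ℕ) (R : L.Relations n) (v : Fin n → ℕ),
        IsClopen {x : ℕ → Bool | @Structure.RelMap L ℕ (f x) n R v})) ∨
    ∀ S : L.Structure ℕ, @Theory.Model L ℕ S T → ∀ I : Set (Σ n, L.Relations n), I.Finite →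
      CellF I S := by
  obtain ⟨e, he⟩ := Countable.exists_injective_nat (Σ n, L.Relations n)
  obtain ⟨C, hC, hM⟩ := md_fs he T hfin hEU
  rcases unbounded hNAM C hC (by
    rw [← hM]
    exact fun x hx y h => md_iso he h hx) with ⟨g, hg, hgB, hgi⟩ | h
  · left
    rw [← hM] at hgB
    refine ⟨fun c => dc he (g c), fun c => (hgB c).2, fun c d hcd =>
      hgi c d (iso_of_siso he (hgB c).1 (hgB d).1 hcd), fun n R v => ?_⟩
    have h4 : Continuous fun c => g c (e ⟨n, R⟩) (fun k => v (Fin.cast (ar_e he ⟨n, R⟩) k)) :=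
      (continuous_apply _).comp ((continuous_apply _).comp hg)
    exact (isClopen_discrete {true}).preimage h4
  · right
    rw [← hM] at h
    intro S hS I hI
    obtain ⟨d, m, sz, f, hf⟩ := h (cd he S) ⟨nrm_cd he S, (siso_dc_cd he S).model hS⟩
      (e '' I) (hI.image e)
    refine ⟨d, m, sz, f, fun σ p hp v => ?_⟩
    obtain ⟨n, R⟩ := p
    have h1 := hf σ (e ⟨n, R⟩) (mem_image_of_mem e hp)
      (fun k => v (Fin.cast (ar_e he ⟨n, R⟩) k))
    have h2 := cd_e he S R v
    have h3 := cd_e he S R (fun j => f.symm (act σ (f (v j))))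
    rw [← h2, ← h3]
    rw [Bool.eq_iff_iff] at h1
    exact h1

end fo

end Pool.Agent.L7h71.UN
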