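import Pool.Agent.L7h71.UN.Stm

set_option autoImplicit false

/-!
# Project UN: assemblies COM, STAR, MAIN, CLS
-/

namespace Pool.Agent.L7h71.UN

open Set Filter Function

theorem s_COM (h1 : S_PERF) (h2 : S_STPA) (h3 : S_STPB) : S_COM := by
  intro r K _ n
  induction n with
  | zero =>
    intro V _ _ M hM ι κ _ _ hn
    exact absurd hn (Nat.not_lt_zero _)
  | succ n ih =>
    intro V _ _ M hM ι κ _ _ hn p q hp hq τ
    rcases Nat.lt_succ_iff_lt_or_eq.1 hn with hn | hn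
    · exact ih V M hM ι κ hn p q hp hq τ
    · by_contra hne
      obtain ⟨Λ, hΛ, hΛc, hR⟩ := h3 r K V ι κ τ _ _ hne
      obtain ⟨W, hW, hO⟩ := @h2 r K _ n ih V _ _ M hM ι κ _ _ hn p q hp hq τ Λ hΛ
      exact hM (h1 r K V _ M W hW (hR W hO))

theorem s_STAR (h1 : S_PERF) (h2 : S_STA) (h3 : S_STB2) (h4 : S_COM) : S_STAR := by
  intro r K _ n
  induction n with
  | zero =>
    intro V _ _ M hM J ι κ _ _ hn
    exact absurd hn (Nat.not_lt_zero _)
  | succ n ih =>
    intro V _ _ M hM J ι κ _ _ hn U g θ hg hθ τ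
    rcases Nat.lt_succ_iff_lt_or_eq.1 hn with hn | hn
    · exact ih V M hM J ι κ hn U g θ hg hθ τ
    · by_contra hne
      obtain ⟨W, hW, hO⟩ := h2 r K (h4 r K) n ih V M hM J ι κ hn U g θ hg hθ τ
      exact hM (h1 r K V _ M W hW (h3 r K V ι κ W τ _ _ hne hO))

/-- For finite `K`. -/
theorem main_finite (hCOM : S_COM) (hSTAR : S_STAR) (hFAM : S_FAM)
    (hRICH : S_RICH) (hBND : S_BND) (hPROC : S_PROC) (hCELL0 : S_CELL0) (hCELL1 : S_CELL1)
    (r : ℕ) (K V : Type) [Finite K] [Countable V] [Infinite V] (M : St r K V) (hM : ¬ Many M) :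
    Cellular M := by
  have hc := hCOM r K
  obtain ⟨k, N, F, h1, h2, h3⟩ := hRICH r K hc V M hM (hFAM r K (hSTAR r K) V M hM)
  have hN : ¬ Many N := fun h => hM (h.of_loc h1)
  have h4 := hPROC r K hc (hSTAR r K) (V ⊕ Fin k) N hN (hBND r K hc (V ⊕ Fin k) N hN) F h3
  have h5 := hCELL1 r k K V N (hCELL0 r K hc (V ⊕ Fin k) N hN h4)
  have h6 : (fun x : Fin r → V => N fun i => Sum.inl (x i)) = M := by
    funext x
    exact h2 x
  rwa [h6] at h5

theorem s_MAIN (hPERF : S_PERF) (hCOM : S_COM) (hSTAR : S_STAR) (hFAM : S_FAM)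
    (hRICH : S_RICH) (hBND : S_BND) (hPROC : S_PROC) (hCELL0 : S_CELL0) (hCELL1 : S_CELL1)
    (hFQ : S_FQ) : S_MAIN := by
  intro r K V _ _ M hM
  by_cases hfin : (range M).Infinite
  · refine absurd (hPERF r K V V M M ?_ (hFQ r K V M hfin)) hM
    intro F
    exact ⟨id, injOn_id _, fun x _ => rfl⟩
  · have hfin' : (range M).Finite := not_infinite.1 hfin
    have : Finite (range M) := hfin'
    let M' : St r (range M) V := fun x => ⟨M x, x, rfl⟩
    have hM' : ¬ Many M' := by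
      rintro ⟨g, g1, g2, g3⟩
      refine hM ⟨fun c x => (g c x : K), fun x => (g1 x).comp _, fun c F => ?_, fun c d h => ?_⟩
      · obtain ⟨e, he, h⟩ := g2 c F
        refine ⟨e, he, fun x hx => ?_⟩
        have := congrArg Subtype.val (h x hx)
        exact this
      · obtain ⟨e, he⟩ := h
        exact g3 c d ⟨e, fun x => Subtype.ext (he x)⟩
    obtain ⟨d, m, sz, e, he⟩ := main_finite hCOM hSTAR hFAM hRICH hBND hPROC hCELL0 hCELL1
      r (range M) V M' hM'
    exact ⟨d, m, sz, e, fun σ x => congrArg Subtype.val (he σ x)⟩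

theorem s_CLS (hNAM : S_NAM) (hFIN : S_FIN) : S_CLS := by
  intro r K _ _ _ _ B hB hiso hloc
  by_cases h : ∀ M ∈ B, Cellular M
  · exact hFIN r K B hB hiso h
  · push Not at h
    obtain ⟨M, hM, hcell⟩ := h
    obtain ⟨F, hF⟩ := hloc M hM
    rcases hNAM r K M F with h1 | ⟨g, g1, g2, g3⟩
    · exact absurd h1 hcell
    · exact Or.inr ⟨g, continuous_pi fun x => (g1 x).continuous, fun c => hF _ (g2 c), g3⟩

end Pool.Agent.L7h71.UN
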