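import Mathlib

set_option autoImplicit false

/-!
# Structures with a valued relation, types as ultrafilters, generic extensions: basic facts

Project UN (universal theories).
-/

namespace Pool.Agent.L7h71.UN

open Set Filter Function

/-- Structures on `V`: one `r`-ary function with values in `K`. -/
abbrev St (r : ℕ) (K V : Type) : Type := (Fin r → V) → K

/-- Every finite piece of `N` embeds in `M`. -/
def Loc {r : ℕ} {K V W : Type} (M : St r K V) (N : St r K W) : Prop :=
  ∀ F : Finset W, ∃ e : W → V, InjOn e F ∧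
    ∀ x : Fin r → W, (∀ i, x i ∈ F) → M (e ∘ x) = N x

/-- Isomorphism. -/
def Iso {r : ℕ} {K V W : Type} (M : St r K V) (N : St r K W) : Prop :=
  ∃ e : V ≃ W, ∀ x : Fin r → V, N (e ∘ x) = M x

/-- There is a continuous family, indexed by the Cantor space, of pairwise non-isomorphic structures
on `ℕ` all of whose finite pieces embed in `M`. -/
def Many {r : ℕ} {K V : Type} (M : St r K V) : Prop :=
  ∃ g : (ℕ → Bool) → St r K ℕ, (∀ x, IsLocallyConstant fun c => g c x) ∧ (∀ c, Loc M (g c)) ∧
    ∀ c d, Iso (g c) (g d) → c = d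

/-- There are finitely many named points `s` and substructures `A c`, `c` in the Cantor space,
which contain `s`, depend continuously on `c`, and are pairwise non-isomorphic over `s`. -/
def Rigid {r : ℕ} {K W : Type} (N : St r K W) : Prop :=
  ∃ (s : Finset W) (A : (ℕ → Bool) → Set W), (∀ w, IsClopen {c | w ∈ A c}) ∧
    (∀ c, (s : Set W) ⊆ A c) ∧ (∀ c, (A c).Infinite) ∧
    ∀ (c d : ℕ → Bool) (f : W → W), BijOn f (A c) (A d) → (∀ w ∈ s, f w = w) →
      (∀ x : Fin r → W, (∀ i, x i ∈ A c) → N (f ∘ x) = N x) → c = d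

/-! ### limits along ultrafilters -/

section lim

variable {X Y K : Type} [Finite K]

theorem exists_lim (p : Ultrafilter X) (f : X → K) : ∃ v, ∀ᶠ x in p, f x = v := by
  obtain ⟨v, hv⟩ := (p.map f).eq_pure_of_finite
  refine ⟨v, ?_⟩
  have h : ∀ᶠ y in ((p.map f : Ultrafilter K) : Filter K), y = v := by
    rw [hv]
    simp
  simpa using h

/-- The limit of `f` along `p`. -/
noncomputable def lim (p : Ultrafilter X) (f : X → K) : K := (exists_lim p f).choose

theorem lim_spec (p : Ultrafilter X) (f : X → K) : ∀ᶠ x in p, f x = lim p f :=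
  (exists_lim p f).choose_spec

theorem lim_eq {p : Ultrafilter X} {f : X → K} {v : K} (h : ∀ᶠ x in p, f x = v) : lim p f = v := by
  obtain ⟨x, h1, h2⟩ := (h.and (lim_spec p f)).exists
  rw [← h1, ← h2]

theorem lim_eq_iff {p : Ultrafilter X} {f : X → K} {v : K} :
    lim p f = v ↔ ∀ᶠ x in p, f x = v :=
  ⟨fun h => h ▸ lim_spec p f, lim_eq⟩

theorem lim_ne_iff {p : Ultrafilter X} {f : X → K} {v : K} :
    lim p f ≠ v ↔ ∀ᶠ x in p, f x ≠ v := by
  rw [Ne, lim_eq_iff, ← Ultrafilter.eventually_not]

theorem lim_congr {p : Ultrafilter X} {f g : X → K} (h : ∀ᶠ x in p, f x = g x) :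
    lim p f = lim p g :=
  lim_eq ((h.and (lim_spec p g)).mono fun _ hx => hx.1.trans hx.2)

@[simp] theorem lim_const (p : Ultrafilter X) (v : K) : lim p (fun _ => v) = v :=
  lim_eq (Eventually.of_forall fun _ => rfl)

theorem lim_map (p : Ultrafilter X) (g : X → Y) (f : Y → K) :
    lim (p.map g) f = lim p fun x => f (g x) := by
  refine lim_eq ?_
  have h := lim_spec p fun x => f (g x)
  rw [Ultrafilter.coe_map, eventually_map]
  exact h

theorem lim_bind (p : Ultrafilter X) (m : X → Ultrafilter Y) (f : Y → K) :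
    lim (p.bind m) f = lim p fun x => lim (m x) f := by
  refine lim_eq ?_
  change ∀ᶠ y in Filter.bind (p : Filter X) (fun x => (m x : Filter Y)), f y = _
  rw [eventually_bind]
  refine (lim_spec p fun x => lim (m x) f).mono fun x hx => ?_
  rw [← hx]
  exact lim_spec (m x) f

theorem lim_pure (a : X) (f : X → K) : lim (pure a : Ultrafilter X) f = f a :=
  lim_eq (by simp [Ultrafilter.coe_pure])

end lim

/-! ### types -/

section types

variable {ι κ V : Type}

/-- A free type: the coordinates are different from each other and from all points. -/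
def Free (p : Ultrafilter (ι → V)) : Prop :=
  (∀ i a, ∀ᶠ x : ι → V in p, x i ≠ a) ∧ ∀ i j, i ≠ j → ∀ᶠ x : ι → V in p, x i ≠ x j

theorem Free.inj [Finite ι] {p : Ultrafilter (ι → V)} (h : Free p) :
    ∀ᶠ x : ι → V in p, Injective x := by
  have h1 : ∀ᶠ x : ι → V in p, ∀ i j, i ≠ j → x i ≠ x j := by
    rw [eventually_all]
    intro i
    rw [eventually_all]
    intro j
    by_cases hij : i = j
    · exact Eventually.of_forall fun x h => absurd hij h
    · exact (h.2 i j hij).mono fun x hx _ => hx
  refine h1.mono fun x hx i j hij => ?_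
  by_contra hne
  exact hx i j hne hij

theorem Free.map {p : Ultrafilter (ι → V)} (h : Free p) {φ : κ → ι} (hφ : Injective φ) :
    Free (p.map fun x => x ∘ φ) := by
  refine ⟨fun i a => ?_, fun i j hij => ?_⟩
  · rw [Ultrafilter.coe_map, eventually_map]
    exact h.1 (φ i) a
  · rw [Ultrafilter.coe_map, eventually_map]
    exact h.2 _ _ fun e => hij (hφ e)

theorem Free.avoid [Finite ι] {p : Ultrafilter (ι → V)} (h : Free p) {F : Set V}
    (hF : F.Finite) : ∀ᶠ x : ι → V in p, ∀ i, x i ∉ F := by
  rw [eventually_all]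
  intro i
  have h1 : ∀ᶠ x : ι → V in p, ∀ a ∈ F, x i ≠ a :=
    (eventually_all_finite hF).2 fun a _ => h.1 i a
  exact h1.mono fun x hx hi => hx _ hi rfl

/-- A free type over `V`, as a type over `V ⊕ κ`. -/
theorem Free.lift {p : Ultrafilter (ι → V)} (h : Free p) :
    Free (p.map fun (x : ι → V) i => (Sum.inl (x i) : V ⊕ κ)) := by
  refine ⟨fun i a => ?_, fun i j hij => ?_⟩
  · rw [Ultrafilter.coe_map, eventually_map]
    cases a with
    | inl a => exact (h.1 i a).mono fun x hx e => hx (Sum.inl_injective e)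
    | inr a => exact Eventually.of_forall fun x e => by simp at e
  · rw [Ultrafilter.coe_map, eventually_map]
    exact (h.2 i j hij).mono fun x hx e => hx (Sum.inl_injective e)

end types

/-! ### terms and extensions -/

section ext

variable {r : ℕ} {K V W X ι κ : Type}

/-- Substitution of the variables of a term: `z` is a tuple of points and variables. -/
def sub (z : Fin r → V ⊕ ι) (x : ι → V) : Fin r → V := fun i => Sum.elim id x (z i)

theorem Loc.trans {M : St r K V} {N : St r K W} {P : St r K X} (h : Loc M N) (h' : Loc N P) :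
    Loc M P := by
  classical
  intro F
  obtain ⟨e, he, h1⟩ := h' F
  obtain ⟨e', he', h2⟩ := h (F.image e)
  refine ⟨e' ∘ e, ?_, fun x hx => ?_⟩
  · intro a ha b hb hab
    exact he ha hb (he' (Finset.mem_image_of_mem _ ha) (Finset.mem_image_of_mem _ hb) hab)
  · rw [comp_assoc, h2 (e ∘ x) fun i => Finset.mem_image_of_mem _ (hx i), h1 x hx]

theorem Many.of_loc {M : St r K V} {N : St r K W} (h : Loc M N) (h' : Many N) : Many M := by
  obtain ⟨g, h1, h2, h3⟩ := h'
  exact ⟨g, h1, fun c => h.trans (h2 c), h3⟩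

/-- The extension of `M` by a realisation of the type `p`. -/
noncomputable def Ext [Finite K] (M : St r K V) (p : Ultrafilter (ι → V)) : St r K (V ⊕ ι) :=
  fun z => lim p fun x => M (sub z x)

variable [Finite K]

theorem ext_inl (M : St r K V) (p : Ultrafilter (ι → V)) (x : Fin r → V) :
    Ext M p (Sum.inl ∘ x) = M x :=
  lim_eq (Eventually.of_forall fun _ => rfl)

theorem loc_ext {M : St r K V} {p : Ultrafilter (ι → V)} (hp : Free p) : Loc M (Ext M p) := by
  classical
  intro F
  have h1 : ∀ᶠ x : ι → V in p, InjOn (Sum.elim id x : V ⊕ ι → V) F := by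
    have h2 : ∀ᶠ x : ι → V in p, ∀ a ∈ (F : Set (V ⊕ ι)), ∀ b ∈ (F : Set (V ⊕ ι)),
        Sum.elim id x a = Sum.elim id x b → a = b := by
      rw [eventually_all_finite F.finite_toSet]
      intro a _
      rw [eventually_all_finite F.finite_toSet]
      intro b _
      rcases a with a | i <;> rcases b with b | j
      · exact Eventually.of_forall fun x h => by simpa using h
      · exact (hp.1 j a).mono fun x hx h => absurd h.symm hx
      · exact (hp.1 i b).mono fun x hx h => absurd h hx
      · by_cases hij : i = j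
        · exact Eventually.of_forall fun x h => by rw [hij]
        · exact (hp.2 i j hij).mono fun x hx h => absurd h hx
    exact h2.mono fun x hx a ha b hb h => hx a ha b hb h
  have h3 : ∀ᶠ x : ι → V in p, ∀ z : Fin r → V ⊕ ι, (∀ i, z i ∈ F) →
      M (sub z x) = Ext M p z := by
    have h4 : {z : Fin r → V ⊕ ι | ∀ i, z i ∈ F}.Finite := by
      have := Set.Finite.pi' (fun _ : Fin r => F.finite_toSet)
      simpa using this
    have h5 := (eventually_all_finite (l := (p : Filter (ι → V))) h4
      (p := fun z x => M (sub z x) = Ext M p z)).2 fun z _ => lim_spec p fun x => M (sub z x)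
    exact h5
  obtain ⟨x, hx1, hx3⟩ := (h1.and h3).exists
  exact ⟨Sum.elim id x, hx1, fun z hz => hx3 z hz⟩

theorem few_ext {M : St r K V} (hM : ¬ Many M) {p : Ultrafilter (ι → V)} (hp : Free p) :
    ¬ Many (Ext M p) := fun h => hM (h.of_loc (loc_ext hp))

/-- Two types are equivalent over `M` if they give the same extension. -/
def Meq (M : St r K V) (p q : Ultrafilter (ι → V)) : Prop := Ext M p = Ext M q

/-- `b` is a generic realisation of the type `p`: it has the same relations as `p` to all points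
outside `b`. -/
def Gen (M : St r K V) (p : Ultrafilter (ι → V)) (b : ι → V) : Prop :=
  Injective b ∧ ∀ z : Fin r → V ⊕ ι, (∀ i j, z i ≠ Sum.inl (b j)) →
    M (sub z b) = lim p fun x => M (sub z x)

end ext

/-! ### iterated limits -/

section iterated

variable {r : ℕ} {K V S : Type} {ι : S → Type}

open Classical in
/-- The iterated limit of `f`: the coordinates in the blocks of the list `l` are chosen along the
types `p s`, the first one first (outermost), the other coordinates are those of `x`. -/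
noncomputable def itl [Finite K] (p : ∀ s, Ultrafilter (ι s → V)) (f : (∀ s, ι s → V) → K) :
    List S → (∀ s, ι s → V) → K
  | [], x => f x
  | s :: l, x => lim (p s) fun y => itl p f l (Function.update x s y)

/-- Substitution for terms with variables in the blocks `ι s`. -/
def subs (z : Fin r → V ⊕ (Σ s, ι s)) (x : ∀ s, ι s → V) : Fin r → V :=
  fun i => Sum.elim id (fun w => x w.1 w.2) (z i)

/-- The number of variables of the block `s` which occur in the term `z`. -/
noncomputable def cnt (z : Fin r → V ⊕ (Σ s, ι s)) (s : S) : ℕ :=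
  Set.ncard {j : ι s | ∃ i, z i = Sum.inr ⟨s, j⟩}

end iterated

/-! ### swaps -/

section swaps

variable {Ω ι : Type}

/-- `g` exchanges the tuples `b` and `b'` and fixes all other points. -/
def IsSwap (g : Equiv.Perm Ω) (b b' : ι → Ω) : Prop :=
  (∀ i, g (b i) = b' i) ∧ (∀ i, g (b' i) = b i) ∧
    ∀ x, (∀ i, x ≠ b i) → (∀ i, x ≠ b' i) → g x = x

/-- Some element of `G` exchanges the tuples `b` and `b'` and fixes all other points. -/
def Sw (G : Subgroup (Equiv.Perm Ω)) (b b' : ι → Ω) : Prop := ∃ g ∈ G, IsSwap g b b'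

/-- `G` is closed: it contains all permutations which agree on each finite set with an element of
`G`. -/
def Closed (G : Subgroup (Equiv.Perm Ω)) : Prop :=
  ∀ g : Equiv.Perm Ω, (∀ Z : Finset Ω, ∃ h ∈ G, ∀ z ∈ Z, h z = g z) → g ∈ G

/-- The tuple `b` is good: there are arbitrarily remote tuples which are exchanged with `b`. -/
def Good (G : Subgroup (Equiv.Perm Ω)) (b : ι → Ω) : Prop :=
  Injective b ∧ ∀ Z : Finset Ω, ∃ b' : ι → Ω, (∀ i, b' i ∉ Z) ∧ (∀ i j, b i ≠ b' j) ∧ Sw G b b'

/-- The permutations which preserve `N` and fix the points of `s`. -/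
def Aut {r : ℕ} {K : Type} (N : St r K Ω) (s : Set Ω) : Subgroup (Equiv.Perm Ω) where
  carrier := {g | (∀ x : Fin r → Ω, N (g ∘ x) = N x) ∧ ∀ w ∈ s, g w = w}
  mul_mem' := by
    rintro g h ⟨h1, h2⟩ ⟨h3, h4⟩
    refine ⟨fun x => ?_, fun w hw => ?_⟩
    · have : (⇑(g * h) ∘ x) = g ∘ (h ∘ x) := rfl
      rw [this, h1, h3]
    · rw [Equiv.Perm.mul_apply, h4 w hw, h2 w hw]
  one_mem' := ⟨fun x => rfl, fun w _ => rfl⟩
  inv_mem' := by
    rintro g ⟨h1, h2⟩
    refine ⟨fun x => ?_, fun w hw => ?_⟩
    · rw [← h1 (⇑g⁻¹ ∘ x)]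
      congr 1
      funext i
      simp
    · rw [Equiv.Perm.inv_eq_iff_eq]
      exact (h2 w hw).symm

theorem mem_aut {r : ℕ} {K : Type} {N : St r K Ω} {s : Set Ω} {g : Equiv.Perm Ω} :
    g ∈ Aut N s ↔ (∀ x : Fin r → Ω, N (g ∘ x) = N x) ∧ ∀ w ∈ s, g w = w := Iff.rfl

theorem closed_aut {r : ℕ} {K : Type} (N : St r K Ω) (s : Set Ω) : Closed (Aut N s) := by
  classical
  intro g hg
  refine ⟨fun x => ?_, fun w hw => ?_⟩
  · obtain ⟨h, h1, h2⟩ := hg (Finset.univ.image x)
    have : g ∘ x = h ∘ x := by
      funext i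
      exact (h2 _ (Finset.mem_image_of_mem _ (Finset.mem_univ i))).symm
    rw [this, h1.1]
  · obtain ⟨h, h1, h2⟩ := hg {w}
    rw [← h2 w (Finset.mem_singleton_self w), h1.2 w hw]

open Classical in
theorem exists_swap {b b' : ι → Ω} (hb : Injective b) (hb' : Injective b')
    (h : ∀ i j, b i ≠ b' j) : ∃ g : Equiv.Perm Ω, IsSwap g b b' := by
  let f : Ω → Ω := fun x => if h : ∃ i, b i = x then b' h.choose else
    if h : ∃ i, b' i = x then b h.choose else x
  have f1 : ∀ i, f (b i) = b' i := by
    intro i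
    have h1 : ∃ j, b j = b i := ⟨i, rfl⟩
    simp only [f, dif_pos h1]
    rw [hb h1.choose_spec]
  have f2 : ∀ i, f (b' i) = b i := by
    intro i
    have h1 : ¬ ∃ j, b j = b' i := fun ⟨j, hj⟩ => h j i hj
    have h2 : ∃ j, b' j = b' i := ⟨i, rfl⟩
    simp only [f, dif_neg h1, dif_pos h2]
    rw [hb' h2.choose_spec]
  have f3 : ∀ x, (∀ i, x ≠ b i) → (∀ i, x ≠ b' i) → f x = x := by
    intro x h1 h2
    have h1' : ¬ ∃ j, b j = x := fun ⟨j, hj⟩ => h1 j hj.symm
    have h2' : ¬ ∃ j, b' j = x := fun ⟨j, hj⟩ => h2 j hj.symm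
    simp only [f, dif_neg h1', dif_neg h2']
  have f4 : ∀ x, f (f x) = x := by
    intro x
    by_cases h1 : ∃ i, x = b i
    · obtain ⟨i, rfl⟩ := h1
      rw [f1, f2]
    · by_cases h2 : ∃ i, x = b' i
      · obtain ⟨i, rfl⟩ := h2
        rw [f2, f1]
      · push Not at h1 h2
        rw [f3 x h1 h2, f3 x h1 h2]
  exact ⟨⟨f, f, f4, f4⟩, f1, f2, f3⟩

end swaps

end Pool.Agent.L7h71.UN
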