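import Pool.Agent.L7h71.UN.Stm

set_option autoImplicit false

/-!
# Project UN: statement of the part CONV
-/

namespace Pool.Agent.L7h71.UN

open Set Filter Function

/-- CONV (200 lines, no earlier parts). A cellular structure has only countably many younger structures
up to isomorphism.

Proof. Let `e : ℕ ≃ Dom d m sz` be as in `Cellular`, write `M` as an invariant structure on `Dom`.
(1) If `Loc M N` then `N` embeds in `M`. Let a finite partial embedding of `{0, ..., n-1}` into `Dom` be
normal if it sends each `x` to a point `inl a` or `inr ⟨i, (k, j)⟩` with `k ≤ x`. Each finite partial
embedding can be made normal by some `act σ` (renumber the cells in the order of appearance), and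
restrictions of normal embeddings are normal. There are finitely many possible values for each `x`, so
by compactness (for instance a limit along a nonprincipal ultrafilter on `n`) there is
`f : ℕ → Dom` all of whose restrictions to `{0, ..., n-1}` are embeddings.
(2) So `N` is isomorphic to the structure induced on the infinite set `A = range f`. The trace of `A`
on the cell `(i, k)` is `{j | inr ⟨i, (k, j)⟩ ∈ A}`. If two sets `A`, `A'` have the same trace on `Fin d`
and for each `i` and each `s : Set (Fin (sz i))` the same number (in `ℕ∞`) of cells with trace `s`, then some
`act σ` maps `A` to `A'`, so the induced structures are isomorphic. There are countably many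
systems of such numbers. -/
def S_CONV : Prop :=
  ∀ (r : ℕ) (K : Type) (M : St r K ℕ), Cellular M →
    ∃ C : Set (St r K ℕ), C.Countable ∧ ∀ N : St r K ℕ, Loc M N → ∃ N₀ ∈ C, Iso N₀ N

end Pool.Agent.L7h71.UN
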