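import Pool.Agent.L7h71.UN.All
import Pool.Agent.L7h71.UN.Fo2
import Pool.Agent.L7h71.UN.StmC
import Pool.Agent.W889.FO.St0

set_option autoImplicit false

/-!
# Vaught's conjecture for universal theories and for `F_σ` classes, relations of bounded arity

(1) Let `K` be a Polish space and let `B` be an isomorphism-invariant Borel class of structures on `ℕ`
with one `r`-ary function with values in `K`, such that each `M ∈ B` has a finite set `F` of points
such that `B` contains all `N` whose finite substructures embed in `M` over `F`. Then the topological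
Vaught conjecture holds for `B`: countably many isomorphism types or a continuous family, indexed by
the Cantor space, of pairwise non-isomorphic members. (For `K = ℕ → Bool` these are the structures with
countably many relations of arity at most `r`; another example are the countable metric spaces.)

(2) In particular this holds for all isomorphism-invariant `F_σ` classes. (`G_δ` classes are, with
relations of arbitrary arity, the general case of the conjecture, since each theory becomes a
`∀∃` theory by naming formulas.)

(3) Vaught's conjecture, perfect-set form, holds for all first-order theories in countable relational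
languages of bounded arity which consist of universal sentences and finitely many `∃∀` sentences.

(4) A structure with one `r`-ary function with values in an arbitrary set has only countably many
younger structures (all finite substructures embed in it) up to isomorphism if it is cellular, and
otherwise there is a continuous Cantor family of pairwise non-isomorphic younger structures; and the
same over finitely many fixed points.

(5) In languages with relations of unbounded arity: if a theory as in (3) has no continuous Cantor family of
pairwise non-isomorphic models then all reducts of its models to finitely many relations are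
cellular.

For finite relational languages the dichotomy in (4) is due to Macpherson, Pouzet and Woodrow
(Countable structures of given age, 1992; see also Braunfeld and Laskowski, Counting siblings in
universal theories, 2022, for a stronger theorem on finite languages). The proof here is different: types
are ultrafilters on tuples of points and structures are extended by iterated limits along
ultrafilters. If limits along two types do not commute, or if diagonal limits differ from iterated
limits, then there are perfectly many younger structures. Otherwise there are finitely many types of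
each arity, the connected types have bounded size, almost all realisations of suitable types
are generic, and generic realisations of a type are exchanged by automorphisms; this gives the cellular
decomposition. Infinitely many values of the function give perfectly many younger structures by a
Ramsey argument.

The parts of the formal proof are due to helpers 23, 24, 42, 46, 51, 60, 66, 68, 69, 73, 77, 89, 93.
-/

namespace Pool.Agent.L7h71.UN.Res

open FirstOrder FirstOrder.Language

/-- Structures on `ℕ` with one `r`-ary function with values in `K`. -/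
abbrev Str (r : ℕ) (K : Type) : Type := (Fin r → ℕ) → K

/-- Isomorphism. -/
def Iso {r : ℕ} {K : Type} (M N : Str r K) : Prop :=
  ∃ σ : Equiv.Perm ℕ, ∀ x : Fin r → ℕ, N (⇑σ ∘ x) = M x

/-- The class has countably many isomorphism types, or it contains a continuous family, indexed by
the Cantor space, of pairwise non-isomorphic structures. -/
def CountableOrPerfect {r : ℕ} {K : Type} [TopologicalSpace K] (B : Set (Str r K)) : Prop :=
  (∃ C : Set (Str r K), C.Countable ∧ ∀ M ∈ B, ∃ N ∈ C, Iso N M) ∨
  (∃ g : (ℕ → Bool) → Str r K, Continuous g ∧ (∀ c, g c ∈ B) ∧ ∀ c d, Iso (g c) (g d) → c = d)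

/-- `N` is younger than `M` over `F`: every finite substructure of `N` which contains `F` embeds in
`M` over `F`. -/
def Younger {r : ℕ} {K : Type} (F : Finset ℕ) (M N : Str r K) : Prop :=
  ∀ X : Finset ℕ, F ⊆ X → ∃ e : ℕ → ℕ, Set.InjOn e X ∧ (∀ a ∈ F, e a = a) ∧
    ∀ x : Fin r → ℕ, (∀ i, x i ∈ X) → M (e ∘ x) = N x

/-- The index set of a cellular decomposition: `d` points and, for each `i < m`, infinitely many
disjoint tuples (cells) of length `sz i`. -/
abbrev Cells (d m : ℕ) (sz : Fin m → ℕ) : Type := Fin d ⊕ (Σ i : Fin m, ℕ × Fin (sz i))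

/-- The permutation of the cells of each family `i` by `σ i`. -/
def permute {d m : ℕ} {sz : Fin m → ℕ} (σ : Fin m → Equiv.Perm ℕ) : Cells d m sz → Cells d m sz :=
  Sum.map id fun w => ⟨w.1, (σ w.1 w.2.1, w.2.2)⟩

/-- `M` is cellular: its points are finitely many points and finitely many families of cells such
that all permutations of the cells of each family are automorphisms. -/
def Cellular {r : ℕ} {K : Type} (M : Str r K) : Prop :=
  ∃ (d m : ℕ) (sz : Fin m → ℕ) (e : ℕ ≃ Cells d m sz), ∀ (σ : Fin m → Equiv.Perm ℕ)
    (x : Fin r → ℕ), M (fun i => e.symm (permute σ (e (x i)))) = M x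

/-- Formulas which consist of existential quantifiers in front of a universal formula. -/
inductive ExUniv {L : FirstOrder.Language.{0, 0}} : ∀ {n : ℕ}, L.BoundedFormula Empty n → Prop
  | of_isUniversal {n : ℕ} {φ : L.BoundedFormula Empty n} (h : φ.IsUniversal) : ExUniv φ
  | ex {n : ℕ} {φ : L.BoundedFormula Empty (n + 1)} (h : ExUniv φ) : ExUniv φ.ex

/-- There is a continuous family of models, indexed by the Cantor space, which are pairwise
non-isomorphic (as in the frozen statement). -/
def Perfect {L : FirstOrder.Language.{0, 0}} (T : L.Theory) : Prop :=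
  ∃ f : (ℕ → Bool) → L.Structure ℕ, (∀ x : ℕ → Bool, @Theory.Model L ℕ (f x) T) ∧
    (∀ x y : ℕ → Bool, Nonempty (@FirstOrder.Language.Equiv L ℕ ℕ (f x) (f y)) → x = y) ∧
    (∀ (n : ℕ) (R : L.Relations n) (a : Fin n → ℕ),
      IsClopen {x : ℕ → Bool | @Structure.RelMap L ℕ (f x) n R a}) ∧
    (∀ (n : ℕ) (F : L.Functions n) (a : Fin n → ℕ) (b : ℕ),
      IsOpen {x : ℕ → Bool | @Structure.funMap L ℕ (f x) n F a = b})

/-- Vaught's conjecture, perfect-set form, for the theory `T` (exactly as in the frozen statement). -/
def Vaught {L : FirstOrder.Language.{0, 0}} (T : L.Theory) : Prop :=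
  (∃ g : ℕ → L.Structure ℕ, ∀ S : L.Structure ℕ, @Theory.Model L ℕ S T →
    ∃ n : ℕ, Nonempty (@FirstOrder.Language.Equiv L ℕ ℕ S (g n))) ∨ Perfect T

/-- The reduct of the structure to the relation symbols in `I` is cellular. -/
def CellularReduct {L : FirstOrder.Language.{0, 0}} (I : Set (Σ n, L.Relations n))
    (S : L.Structure ℕ) : Prop :=
  ∃ (d m : ℕ) (sz : Fin m → ℕ) (e : ℕ ≃ Cells d m sz), ∀ (σ : Fin m → Equiv.Perm ℕ),
    ∀ p ∈ I, ∀ v : Fin p.1 → ℕ,
      (@Structure.RelMap L ℕ S p.1 p.2 (fun j => e.symm (permute σ (e (v j)))) ↔
        @Structure.RelMap L ℕ S p.1 p.2 v)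

theorem locOver_iff {r : ℕ} {K : Type} {F : Finset ℕ} {M N : Str r K} :
    LocOver F M N ↔ Younger F M N := by
  classical
  constructor
  · intro h X _
    obtain ⟨e, h1, h2, -, h4⟩ := h X
    exact ⟨e, h1, h2, h4⟩
  · intro h X
    obtain ⟨e, h1, h2, h3⟩ := h (X ∪ F) Finset.subset_union_right
    refine ⟨e, h1.mono (by simp), h2, fun a ha hF => ?_, fun x hx =>
      h3 x fun i => Finset.mem_union_left _ (hx i)⟩
    have h4 : e (e a) = e a := h2 _ hF
    have h5 := h1 (Finset.mem_coe.2 (Finset.mem_union_right _ hF))
      (Finset.mem_coe.2 (Finset.mem_union_left _ ha)) h4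
    rw [← h5]
    exact hF

theorem isEU_of {L : FirstOrder.Language.{0, 0}} {n : ℕ} {φ : L.BoundedFormula Empty n}
    (h : ExUniv φ) : IsEU φ := by
  induction h with
  | of_isUniversal h => exact IsEU.of_isUniversal h
  | ex _ ih => exact IsEU.ex ih

theorem countable_rel {L : FirstOrder.Language.{0, 0}} (h : Countable L.Symbols) :
    Countable (Σ n, L.Relations n) := by
  have h1 : Countable ((Σ n, L.Functions n) ⊕ Σ n, L.Relations n) := h
  exact Function.Injective.countable
    (Sum.inr_injective : Function.Injective (Sum.inr : _ → (Σ n, L.Functions n) ⊕ Σ n, L.Relations n))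

theorem res_of (hCONV : S_CONV) :
    (∀ (r : ℕ) (K : Type) [TopologicalSpace K] [PolishSpace K] [MeasurableSpace K] [BorelSpace K]
      (B : Set (Str r K)), MeasurableSet B → (∀ M ∈ B, ∀ N, Iso M N → N ∈ B) →
      (∀ M ∈ B, ∃ F : Finset ℕ, ∀ N, Younger F M N → N ∈ B) → CountableOrPerfect B) ∧
    (∀ (r : ℕ) (K : Type) [TopologicalSpace K] [PolishSpace K] (C : ℕ → Set (Str r K)),
      (∀ n, IsClosed (C n)) → (∀ M ∈ ⋃ n, C n, ∀ N, Iso M N → N ∈ ⋃ n, C n) →
      CountableOrPerfect (⋃ n, C n)) ∧
    (∀ L : FirstOrder.Language.{0, 0}, L.IsRelational → Countable L.Symbols →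
      ∀ r : ℕ, (∀ n, r < n → IsEmpty (L.Relations n)) → ∀ T : L.Theory, (∀ φ ∈ T, ExUniv φ) →
      {φ ∈ T | ¬ φ.IsUniversal}.Finite → Vaught T) ∧
    (∀ (r : ℕ) (K : Type) (M : Str r K) (F : Finset ℕ),
      (Cellular M → ∃ C : Set (Str r K), C.Countable ∧ ∀ N, Younger F M N → ∃ N₀ ∈ C, Iso N₀ N) ∧
      (¬ Cellular M → ∃ g : (ℕ → Bool) → Str r K, (∀ x, IsLocallyConstant fun c => g c x) ∧
        (∀ c, Younger F M (g c)) ∧ ∀ c d, Iso (g c) (g d) → c = d)) ∧
    (∀ L : FirstOrder.Language.{0, 0}, L.IsRelational → Countable L.Symbols →
      ∀ T : L.Theory, (∀ φ ∈ T, ExUniv φ) → {φ ∈ T | ¬ φ.IsUniversal}.Finite →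
      Perfect T ∨ ∀ S : L.Structure ℕ, @Theory.Model L ℕ S T →
        ∀ I : Set (Σ n, L.Relations n), I.Finite → CellularReduct I S) := by
  refine ⟨fun r K _ _ _ _ B hB hiso hloc => ?_, fun r K _ _ C hC hiso => ?_,
    fun L hL hc r hr T hT hfin => ?_, fun r K M F => ⟨fun hM => ?_, fun hM => ?_⟩,
    fun L hL hc T hT hfin => ?_⟩
  · refine cls r K B hB hiso fun M hM => ?_
    obtain ⟨F, hF⟩ := hloc M hM
    exact ⟨F, fun N hN => hF N (locOver_iff.1 hN)⟩
  · exact fsigma cls r K C hC hiso
  · have := countable_rel hc
    exact (Pool.Agent.W889.FO.vaughtF_iff L T).2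
      (fo_univ cls r hr T hfin fun φ hφ => isEU_of (hT φ hφ))
  · obtain ⟨C, hC, h⟩ := hCONV r K M hM
    refine ⟨C, hC, fun N hN => h N fun X => ?_⟩
    obtain ⟨e, h1, -, -, h4⟩ := locOver_iff.2 hN X
    exact ⟨e, h1, h4⟩
  · rcases nam r K M F with h | ⟨g, g1, g2, g3⟩
    · exact absurd h hM
    · exact ⟨g, g1, fun c => locOver_iff.1 (g2 c), g3⟩
  · have := countable_rel hc
    rcases fo_unb nam T hfin fun φ hφ => isEU_of (hT φ hφ) with ⟨f, f1, f2, f3⟩ | h
    · exact Or.inl ⟨f, f1, f2, f3, fun n F => isEmptyElim F⟩
    · exact Or.inr h

end Pool.Agent.L7h71.UN.Res
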