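import Pool.Agent.L7h71.UN.Basic

set_option autoImplicit false

/-!
# Project UN: statements of the parts

GOAL. Let `K` be a Polish space, `r` a number and `B` a Borel set of `K`-valued `r`-ary functions on
`ℕ` (structures `St r K ℕ`), closed under isomorphism, such that for every `M ∈ B` there is a finite
set `F` such that `B` contains all `N` whose finite pieces embed in `M` over `F`. Then `B` has
countably many isomorphism types or a continuous Cantor family of pairwise non-isomorphic members.
In particular Vaught's conjecture holds for all universal first-order theories in countable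
relational languages of bounded arity (also with finitely many further `∃∀` sentences), and for all
isomorphism-invariant `F_σ` classes.

PLAN. `Few` means: not `Many`. First `K` is finite. If `M` is few then limits along free types commute
(COM), there are no star configurations (STAR), so there are finitely many types over `M` (FAM), and
`M` is cellular (CELL): a finite set together with finitely many families of finite tuples (cells)
such that all permutations of the cells of each family are automorphisms. For infinite `K` structures
with infinite range are `Many` (FQ). The cellular structures are parametrised by finitely many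
elements of `K` (FIN).

In all parts `V` is the set of points, types are ultrafilters on `ι → V`. `Ext M p` is the extension
of `M` by a realisation of `p`, `itl` the iterated limit (head of the list = outermost limit = the
block which is chosen first).

CONVENTION. Part `S_XXX` is proved in a file `Pool/Agent/L7hNN/UN/Xxx.lean` as a theorem
`s_XXX : S_XXX`, or with the hypotheses that are mentioned in the docstring, for example
`s_SYM (h1 : S_PRO) (h2 : S_ADJ) : S_SYM`. Everything of the form `DecidableEq` is classical.
-/

namespace Pool.Agent.L7h71.UN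

open Set Filter Function

/-! ### A. the perfect-set engine -/

/-- PERF0 (150-200 lines). A continuous family of structures on `ℕ`, each with a named `k`-tuple
`s c` which depends continuously on `c`; members of the family with different indices are not
isomorphic by a map that respects the named tuples. Then the indices can be thinned out to a
perfect set on which the structures are pairwise non-isomorphic.

Proof. Let `E = {(c, d) | Iso (g c) (g d)}`. It is the projection of the set of all `(c, d, e, e')`,
`e e' : ℕ → ℕ` inverse to each other with `g d (e ∘ x) = g c x` for all `x`, which is closed in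
`Cantor × Cantor × Baire × Baire` (all conditions are locally constant in the parameters), so `E` is
analytic: empty or a continuous image of `ℕ → ℕ` (`IsClosed.analyticSet`,
`AnalyticSet.image_of_continuous`, `analyticSet` unfolded). For fixed `c` the set of `d` with
`(c, d) ∈ E` is countable: the map `d ↦ e_d⁻¹ ∘ s d : Fin k → ℕ` (for a chosen isomorphism
`e_d : g c ≅ g d`) is injective, because if the values at `d`, `d'` are equal then `e_{d'} ∘ e_d⁻¹` is
an isomorphism which maps `s d` to `s d'`, so `d = d'`. Countable subsets of the Cantor space are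
meagre. By `Pool.Agent.H566W` file `Pool/Agent/H566W/Ana.lean`, theorem `meagre_of_sections`, `E` is
meagre, so it is disjoint from an intersection of open dense sets `W n`, and the theorem `mycielski'`
of `Pool/Agent/H565R2/FO2/Myc.lean` gives `h` (continuous, `c ≠ d → (h c, h d) ∈ W n` for all `n`). -/
def S_PERF0 : Prop :=
  ∀ (r k : ℕ) (K : Type) (g : (ℕ → Bool) → St r K ℕ) (s : (ℕ → Bool) → Fin k → ℕ),
    (∀ x, IsLocallyConstant fun c => g c x) → (∀ i, IsLocallyConstant fun c => s c i) →
    (∀ (c d : ℕ → Bool) (e : Equiv.Perm ℕ), (∀ i, e (s c i) = s d i) →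
      (∀ x : Fin r → ℕ, g d (e ∘ x) = g c x) → c = d) →
    ∃ h : (ℕ → Bool) → (ℕ → Bool), Continuous h ∧ ∀ c d, Iso (g (h c)) (g (h d)) → c = d

/-- PERF (100 lines), hypothesis `S_PERF0`. `W` is infinite since `A c` is, so we can assume `W = ℕ`.
Enumerate `A c` increasingly (`Nat.nth`); the `i`-th element and the position of each named point
depend locally constantly on `c`. Let `g c` be the structure induced by `N` on `A c`, transported to
`ℕ` by the enumeration. Apply PERF0, and use `Loc.trans` (an injection into `W` that preserves the
values shows `Loc N (g c)`). -/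
def S_PERF : Prop :=
  ∀ (r : ℕ) (K V W : Type) [Countable W] (M : St r K V) (N : St r K W),
    Loc M N → Rigid N → Many M

/-! ### B. products of types -/

/-- PRO (150 lines). Product of types along a linear order. For a strictly increasing list `l` and
`x0` let `Q l x0` be the ultrafilter on `∀ s, ι s → V` obtained by iterated `Ultrafilter.bind` /
`Ultrafilter.map` (`Q [] x = pure x`, `Q (s :: l) x = (p s).bind fun y => Q l (update x s y)`), so
`itl p f l x0 = lim (Q l x0) f` (`lim_bind`, `lim_pure`). If `l'` is a sublist of `l` and the set `A`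
of functions depends only on the coordinates in `l'` then `A ∈ Q l x0 ↔ A ∈ Q l' x0`. So the sets
`A` which depend only on the blocks of a finite set of indices and belong to `Q l x0` for the sorted
list `l` of these indices form a filter base (any two of them are in `Q l x0` for a common `l`);
let `P` be an ultrafilter containing them all (transported to functions on the sigma type). For the
freeness of `P`: coordinates in different blocks `s < t` are different since `p t` is free. -/
def S_PRO : Prop :=
  ∀ (V S : Type) [Nonempty V] [LinearOrder S] (ι : S → Type) (p : ∀ s, Ultrafilter (ι s → V)),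
    ∃ P : Ultrafilter ((Σ s, ι s) → V), ((∀ s, Free (p s)) → Free P) ∧
      ∀ (r : ℕ) (K : Type) [Finite K] (M : St r K V) (z : Fin r → V ⊕ (Σ s, ι s)) (l : List S),
        l.Pairwise (· < ·) → (∀ i w, z i = Sum.inr w → w.1 ∈ l) → ∀ x0 : ∀ s, ι s → V,
        Ext M P z = itl p (fun x => M (subs z x)) l x0

/-- Limits along free types with together fewer than `n` coordinates commute, for few structures. -/
def Comm (r : ℕ) (K : Type) [Finite K] (n : ℕ) : Prop :=
  ∀ (V : Type) [Countable V] [Infinite V] (M : St r K V), ¬ Many M →
    ∀ (ι κ : Type) [Finite ι] [Finite κ], Nat.card ι + Nat.card κ < n →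
    ∀ (p : Ultrafilter (ι → V)) (q : Ultrafilter (κ → V)), Free p → Free q →
    ∀ τ : Fin r → V ⊕ (ι ⊕ κ),
      lim p (fun x => lim q fun y => M (sub τ (Sum.elim x y))) =
      lim q (fun y => lim p fun x => M (sub τ (Sum.elim x y)))

/-- ADJ (150 lines), hypothesis `S_PRO`. Two adjacent blocks can be exchanged if together fewer than
`n` of their variables occur in `z`.

Proof. Let `L = {u // u ∈ l}`, ordered by the position in `l`, and let `P` be the product (PRO) of the
types `p u`, `u ∈ L`. Then `M₂ := Ext M P` (on `V ⊕ Σ u : L, ι u`, countable) is few by `few_ext`. For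
fixed `x` and `y : ι s → V`, `y' : ι t → V` we have
`itl p f l (update (update x s y) t y') = M₂ (z[y, y'])`, where in `z[y, y']` the variables of the
block `s` are replaced by the values of `y`, those of `t` by `y'`, those of blocks outside
`s, t, l` by the values of `x`, and those of the blocks in `l` are kept as points of `M₂`
(`l` is nodup and does not contain `s`, `t`; use the evaluation in PRO). Let `ι'`, `κ'` be the finite
sets of the variables of the blocks `s`, `t` which occur in `z`. Apply `Comm r K n` to `M₂` and the
restrictions of `p s`, `p t` to `ι'`, `κ'`, lifted to `V ⊕ _` (`Free.lift`, `Free.map`, `lim_map`). -/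
def S_ADJ : Prop :=
  ∀ (r : ℕ) (K : Type) [Finite K] (n : ℕ), Comm r K n →
    ∀ (V : Type) [Countable V] [Infinite V] (M : St r K V), ¬ Many M →
    ∀ (S : Type) (ι : S → Type) [∀ s, Countable (ι s)] (p : ∀ s, Ultrafilter (ι s → V)),
      (∀ s, Free (p s)) →
    ∀ (z : Fin r → V ⊕ (Σ s, ι s)) (s t : S) (l : List S), (s :: t :: l).Nodup →
      cnt z s + cnt z t < n → ∀ x0 : ∀ s, ι s → V,
      itl p (fun x => M (subs z x)) (s :: t :: l) x0 =
      itl p (fun x => M (subs z x)) (t :: s :: l) x0

/-- SPR (30 lines), hypothesis `S_ADJ`. Moving a block from the front to the end. Induction on `l`,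
for all `x0`. -/
def S_SPR : Prop :=
  ∀ (r : ℕ) (K : Type) [Finite K] (n : ℕ), Comm r K n →
    ∀ (V : Type) [Countable V] [Infinite V] (M : St r K V), ¬ Many M →
    ∀ (S : Type) (ι : S → Type) [∀ s, Countable (ι s)] (p : ∀ s, Ultrafilter (ι s → V)),
      (∀ s, Free (p s)) →
    ∀ (z : Fin r → V ⊕ (Σ s, ι s)) (μ : S) (l : List S), (μ :: l).Nodup →
      (∀ s ∈ l, cnt z μ + cnt z s < n) → ∀ x0 : ∀ s, ι s → V,
      itl p (fun x => M (subs z x)) (μ :: l) x0 =
      itl p (fun x => M (subs z x)) (l ++ [μ]) x0

/-- SYM (100 lines), hypotheses `S_PRO`, `S_ADJ`. For few `M` the order of the limits does not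
matter. The first conclusion: permuting the list does not change `itl` (induction on `List.Perm`,
for all `x0`). The second: choose any linear order of `S` and take the product `P` of PRO; a nodup
list `l` containing the blocks of `z` is a permutation of a strictly increasing one. -/
def S_SYM : Prop :=
  ∀ (r : ℕ) (K : Type) [Finite K], (∀ n, Comm r K n) →
    ∀ (V : Type) [Countable V] [Infinite V] (M : St r K V), ¬ Many M →
    ∀ (S : Type) (ι : S → Type) [∀ s, Countable (ι s)] (p : ∀ s, Ultrafilter (ι s → V)),
      (∀ s, Free (p s)) →
    (∀ (z : Fin r → V ⊕ (Σ s, ι s)) (l l' : List S), l.Perm l' → l.Nodup →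
      ∀ x0 : ∀ s, ι s → V, itl p (fun x => M (subs z x)) l x0 =
        itl p (fun x => M (subs z x)) l' x0) ∧
    ∃ P : Ultrafilter ((Σ s, ι s) → V), Free P ∧
      ∀ (z : Fin r → V ⊕ (Σ s, ι s)) (l : List S), l.Nodup →
        (∀ i w, z i = Sum.inr w → w.1 ∈ l) → ∀ x0 : ∀ s, ι s → V,
        Ext M P z = itl p (fun x => M (subs z x)) l x0

/-! ### C. limits commute -/

/-- The data of a failure of commutativity, realised along a linear order `Λ`: `Λ` blocks
`X_λ = ((λ, inl i))_i`, `Y_λ = ((λ, inr k))_k`. -/
structure OrdConf {r : ℕ} {K V ι κ Λ : Type} [LinearOrder Λ] (W : St r K (V ⊕ Λ × (ι ⊕ κ)))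
    (τ : Fin r → V ⊕ (ι ⊕ κ)) (α β : K) : Prop where
  /-- the value of a tuple depends only on the order of the blocks -/
  inv : ∀ (z : Fin r → V ⊕ Λ × (ι ⊕ κ)) (φ : Λ → Λ),
    StrictMonoOn φ {l | ∃ i w, z i = Sum.inr w ∧ w.1 = l} →
    W (Sum.map id (Prod.map φ id) ∘ z) = W z
  /-- the value of `τ` at `X_l`, `Y_m`, for `l < m` and for `m < l` -/
  low : ∀ l m, l < m →
    W (Sum.map id (Sum.elim (fun i => (l, Sum.inl i)) fun k => (m, Sum.inr k)) ∘ τ) = α
  high : ∀ l m, m < l →
    W (Sum.map id (Sum.elim (fun i => (l, Sum.inl i)) fun k => (m, Sum.inr k)) ∘ τ) = β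
  /-- for a tuple `x` which is not contained in one block, the value of `τ` at `x`, `Y` is the same
  for `Y` on the left and on the right -/
  spreadX : ∀ (x : ι → Λ × (ι ⊕ κ)), Injective x → (∃ i j, (x i).1 ≠ (x j).1) →
    ∀ l m, (∀ i, l < (x i).1) → (∀ i, (x i).1 < m) →
    W (Sum.map id (Sum.elim x fun k => (l, Sum.inr k)) ∘ τ) =
    W (Sum.map id (Sum.elim x fun k => (m, Sum.inr k)) ∘ τ)
  spreadY : ∀ (y : κ → Λ × (ι ⊕ κ)), Injective y → (∃ i j, (y i).1 ≠ (y j).1) →
    ∀ l m, (∀ i, l < (y i).1) → (∀ i, (y i).1 < m) →
    W (Sum.map id (Sum.elim (fun i => (l, Sum.inl i)) y) ∘ τ) =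
    W (Sum.map id (Sum.elim (fun i => (m, Sum.inl i)) y) ∘ τ)

/-- STPA (200 lines), hypotheses `S_PRO`, `S_SPR`. Construction of the order configuration.

Let `P₀ = p.bind fun x => q.map fun y => Sum.elim x y` (first `x`, then `y`), a free type on
`ι ⊕ κ → V`, and let `P` be the product (PRO) over `Λ` of copies of `P₀`; `W` is `Ext M P`, with
`Σ _ : Λ, (ι ⊕ κ)` replaced by `Λ × (ι ⊕ κ)`. `Loc M W` by `loc_ext` (and reindexing). `inv`: evaluate both
sides on the sorted list of blocks (all types are `P₀`, rename the list, induction). `low`: the limit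
over `X_l` (and the unused `Y_l`), then `Y_m` (and the unused `X_m`); the marginals of `P₀` are `p` and
`q`. `high`: first `Y_m`, then `X_l`. `spreadX`: let `l₁ < ... < l_k` be the blocks of `x`, all between
`l` and `m`. The left side is `itl (l :: [l₁, ..., l_k])`; in the term only the `κ`-part of the block
`l` occurs and at most `card ι - 1` variables of each block `l_j`, since `x` is not contained in
one block; so by SPR (the sum is `< card ι + card κ = n`) it is equal to `itl ([l₁, ..., l_k] ++ [l])`,
which is the right side after renaming `l` as `m`. `spreadY` is similar. -/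
def S_STPA : Prop :=
  ∀ (r : ℕ) (K : Type) [Finite K] (n : ℕ), Comm r K n →
    ∀ (V : Type) [Countable V] [Infinite V] (M : St r K V), ¬ Many M →
    ∀ (ι κ : Type) [Finite ι] [Finite κ], Nat.card ι + Nat.card κ = n →
    ∀ (p : Ultrafilter (ι → V)) (q : Ultrafilter (κ → V)), Free p → Free q →
    ∀ τ : Fin r → V ⊕ (ι ⊕ κ), ∀ (Λ : Type) [LinearOrder Λ],
      ∃ W : St r K (V ⊕ Λ × (ι ⊕ κ)), Loc M W ∧ OrdConf W τ
        (lim p fun x => lim q fun y => M (sub τ (Sum.elim x y)))
        (lim q fun y => lim p fun x => M (sub τ (Sum.elim x y)))

/-- STPB (250-300 lines, pure combinatorics). Decoding of a subset of the order.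

Take `Λ` = one left reference index `a`, then for `k = 0, 1, 2, ...` (in this order) an interval
`ω + (2k+2 points) + ω*`, then one right reference index `b`. For `c : ℕ → Bool` let `Λ_c` be `Λ`
without `a`, `b` and without the last of the `2k+2` middle points for each `k` with `c k = false`, so
the `k`-th middle part has `F_k = 2k+1` or `2k+2` points (`c k = false`, `true`).
Named points `s`: the points of `V` in `τ` and the blocks `a` and `b`. `A c` = `s` and all blocks in `Λ_c`.

Let `X*(c)` be the set of injective `x : ι → Λ_c × (ι ⊕ κ)` with the same relations to `s` as a block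
`X_t`, `t` in `Λ_c` (`W` has the same value for all terms with variables in `ι` and points in `s`);
by `inv` this does not depend on `t`. `Y*(c)` is defined similarly with `Y_t`.
(1) `x ∈ X*` lies in one block: otherwise `spreadX` with `l = a`, `m = b` gives `β = α` (these values are
part of the relations to `s`). Same for `Y*`.
(2) If `x ∈ X*` is in block `l`, `y ∈ Y*` in block `m`, then the value `W(τ[x, y])` is `α` for `l < m`:
move `x` to its copy `x_a` in the block `a` (`inv`), now `W(τ[x_a, y]) = W(τ[x_a, Y_t])` as `y ∈ Y*`,
`= W(τ[x, Y_b])` (`inv`), `= W(τ[X_t, Y_b])` (`x ∈ X*`), `= α`. Similarly it is `β` for `m < l`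
(move `x` to the block `b`, then use `Y_a`). So for `D(x) = {y ∈ Y* | W(τ[x, y]) = β}` the symmetric
difference of `D(x)` and `D(x')` is finite iff there are finitely many elements of `Λ_c` between the
blocks of `x` and `x'`. The number `w ≥ 1` of elements of `X*` in a block does not depend on the block or
on `c` (`inv`); so the finite classes of this equivalence relation on `X*(c)` have the sizes
`w * F_k`, `k ∈ ℕ` (the other classes are infinite). A map `f` as in `Rigid` preserves all this, so the
sets of numbers `F_k` are equal for `c` and `d`, hence `c = d`.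
(`α ≠ β` implies that `ι` and `κ` are nonempty, by `low`, `high`: e.g. if `κ` is empty the tuple in `low`
and `high` is the same for suitable blocks.) -/
def S_STPB : Prop :=
  ∀ (r : ℕ) (K V ι κ : Type) [Finite ι] [Finite κ] (τ : Fin r → V ⊕ (ι ⊕ κ)) (α β : K), α ≠ β →
    ∃ (Λ : Type) (_ : LinearOrder Λ) (_ : Countable Λ), ∀ W : St r K (V ⊕ Λ × (ι ⊕ κ)),
      OrdConf W τ α β → Rigid W

/-- COM (assembly, 30 lines, helper71): from PERF, STPA, STPB by induction on `n`. -/
def S_COM : Prop := ∀ (r : ℕ) (K : Type) [Finite K] (n : ℕ), Comm r K n

/-! ### D. no star configurations -/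

/-- For few structures the diagonal limit is equal to the iterated limit. -/
def Star (r : ℕ) (K : Type) [Finite K] (n : ℕ) : Prop :=
  ∀ (V : Type) [Countable V] [Infinite V] (M : St r K V), ¬ Many M →
    ∀ (J ι κ : Type) [Finite ι] [Finite κ], Nat.card ι + Nat.card κ < n →
    ∀ (U : Ultrafilter J) (g : J → ι → V) (θ : J → Ultrafilter (κ → V)),
      Free (U.map g) → (∀ j, Free (θ j)) →
    ∀ τ : Fin r → V ⊕ (ι ⊕ κ),
      lim U (fun k => lim (θ k) fun y => M (sub τ (Sum.elim (g k) y))) =
      lim U fun j => lim U fun k => lim (θ k) fun y => M (sub τ (Sum.elim (g j) y))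

/-- The permutation `σ` of the stars and permutations `π s` of the leaves of the star `s`. The points
are `(s, inl i)` (centre of the star `s`) and `(s, inr (l, k))` (leaf number `l` of the star `s`). -/
def sact {ι κ : Type} (σ : Equiv.Perm ℕ) (π : ℕ → Equiv.Perm ℕ) :
    ℕ × (ι ⊕ ℕ × κ) → ℕ × (ι ⊕ ℕ × κ) :=
  fun w => (σ w.1, Sum.map id (fun u => (π w.1 u.1, u.2)) w.2)

open Classical in
/-- Move the leaves with numbers in `L` from the star `s` to the star `s'`. -/
noncomputable def smv {ι κ : Type} (s s' : ℕ) (L : Set ℕ) :
    ℕ × (ι ⊕ ℕ × κ) → ℕ × (ι ⊕ ℕ × κ)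
  | (t, Sum.inl i) => (t, Sum.inl i)
  | (t, Sum.inr (l, k)) => if t = s ∧ l ∈ L then (s', Sum.inr (l, k)) else (t, Sum.inr (l, k))

/-- A star configuration. -/
structure StarConf {r : ℕ} {K V ι κ : Type} (W : St r K (V ⊕ ℕ × (ι ⊕ ℕ × κ)))
    (τ : Fin r → V ⊕ (ι ⊕ κ)) (α γ : K) : Prop where
  inv : ∀ (σ : Equiv.Perm ℕ) (π : ℕ → Equiv.Perm ℕ) (z : Fin r → V ⊕ ℕ × (ι ⊕ ℕ × κ)),
    W (Sum.map id (sact σ π) ∘ z) = W z
  /-- decoupling: if `z` does not meet the star `s'` and has fewer than `card ι + card κ` points in
  the star `s` then the leaves of `s` with numbers in `L` can be moved to `s'` -/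
  dec : ∀ (z : Fin r → V ⊕ ℕ × (ι ⊕ ℕ × κ)) (s s' : ℕ) (L : Set ℕ), s ≠ s' →
    (∀ i w, z i = Sum.inr w → w.1 ≠ s') →
    Set.ncard {w : ℕ × (ι ⊕ ℕ × κ) | w.1 = s ∧ ∃ i, z i = Sum.inr w} < Nat.card ι + Nat.card κ →
    W (Sum.map id (smv s s' L) ∘ z) = W z
  diag : ∀ s l : ℕ, W (Sum.map id (Sum.elim (fun i => (s, Sum.inl i))
    fun k => (s, Sum.inr (l, k))) ∘ τ) = α
  off : ∀ s t l : ℕ, s ≠ t → W (Sum.map id (Sum.elim (fun i => (s, Sum.inl i))
    fun k => (t, Sum.inr (l, k))) ∘ τ) = γ

/-- STA (300 lines; may be split as you like: construction + inv + diag + off, and dec), hypotheses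
`S_PRO`, `S_SYM`. Construction of the star configuration.

For `j : J` let `Θ j` be the product (SYM, for the few structure `M`; index set `ℕ`, all types `θ j`) on
`(Σ _ : ℕ, κ) → V`. (Since PRO gives `P` before `r, K, M`, one can use the product of PRO for the usual
order of `ℕ`, for all few structures at once; with the first conclusion of SYM its limits can be
evaluated in any order of the blocks, for `M` and for all `Ext M Q` lifted as below.)
Let `E = U.bind fun j => (Θ j).map fun w => Sum.elim (g j) fun u => w ⟨u.1, u.2⟩`, a free type on
`ι ⊕ ℕ × κ → V`. Let `P` be the product of infinitely many copies (index set `ℕ`) of `E` by SYM and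
`W = Ext M P` (reindexed). `Loc M W` by `loc_ext`.
`diag`: one block, `lim U fun j => lim (Θ j) ...`, and the marginal of `Θ j` on one leaf is `θ j`.
`off`: blocks `s`, `t` in this order.
`inv`: `σ`: rename the list of blocks (all types are `E`). `π`: it is enough to change the leaves of
one star `s`; evaluate with `s` as the first block and the other blocks `l'` after it:
`W z = lim E fun w => M₂ (z[w])` for `M₂ = Ext M (product of the blocks in l')`, few by `few_ext`; for
each `j` the limit along `Θ j` (lifted to the points of `M₂`) does not change if the leaves are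
permuted, by SYM for `M₂`.
`dec`: let `M₂` be the extension of `M` by the product of the blocks of `z` other than `s` (these are
also different from `s'`). Let `Z₁`, `Z₂` be the sets of the points of `z` in the star `s` which are not
moved (centre, or leaf number not in `L`), resp. moved. `W z = lim U fun j => lim (Θ j) fun w =>
lim (Θ j) fun w' => M₂ (z[g j, w on Z₁, w' on Z₂])` by SYM for `M₂` (first the leaves not in `L`, then those
in `L`, then marginals), and `W (moved z) = lim_j lim_{w ∈ Θ j} lim_{j'} lim_{w' ∈ Θ j'}` of the same.
Apply `Star r K n` to `M₂`, the index set `J × ((Σ _ : ℕ, κ) → V)` with the ultrafilter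
`U.bind fun j => (Θ j).map fun w => (j, w)`, `g' (j, w) = (values on Z₁)`, `θ' (j, w) = (Θ j)`
restricted to `Z₂`; `card Z₁ + card Z₂ < card ι + card κ = n`. -/
def S_STA : Prop :=
  ∀ (r : ℕ) (K : Type) [Finite K], (∀ n, Comm r K n) → ∀ n, Star r K n →
    ∀ (V : Type) [Countable V] [Infinite V] (M : St r K V), ¬ Many M →
    ∀ (J ι κ : Type) [Finite ι] [Finite κ], Nat.card ι + Nat.card κ = n →
    ∀ (U : Ultrafilter J) (g : J → ι → V) (θ : J → Ultrafilter (κ → V)),
      Free (U.map g) → (∀ j, Free (θ j)) →
    ∀ τ : Fin r → V ⊕ (ι ⊕ κ), ∃ W : St r K (V ⊕ ℕ × (ι ⊕ ℕ × κ)), Loc M W ∧ StarConf W τ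
      (lim U fun k => lim (θ k) fun y => M (sub τ (Sum.elim (g k) y)))
      (lim U fun j => lim U fun k => lim (θ k) fun y => M (sub τ (Sum.elim (g j) y)))

/-- The points of the star `t` which are named: stars `t < card ι + 1`, leaves with numbers
`< card ι + card κ`; and the points of `V` which occur in `τ`. -/
def Nam {r : ℕ} {V ι κ : Type} (τ : Fin r → V ⊕ (ι ⊕ κ)) : Set (V ⊕ ℕ × (ι ⊕ ℕ × κ)) :=
  {u | (∃ i v, τ i = Sum.inl v ∧ u = Sum.inl v) ∨
    (∃ t i, t < Nat.card ι + 1 ∧ u = Sum.inr (t, Sum.inl i)) ∨
    ∃ t l k, t < Nat.card ι + 1 ∧ l < Nat.card ι + Nat.card κ ∧ u = Sum.inr (t, Sum.inr (l, k))}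

/-- `x` is like the centre of a star which is not named: it is injective, contains no points of named
stars, and has the same relations to the named points as a centre. -/
structure LikeX {r : ℕ} {K V ι κ : Type} (W : St r K (V ⊕ ℕ × (ι ⊕ ℕ × κ)))
    (τ : Fin r → V ⊕ (ι ⊕ κ)) (x : ι → ℕ × (ι ⊕ ℕ × κ)) : Prop where
  inj : Injective x
  far : ∀ i, Nat.card ι + 1 ≤ (x i).1
  typ : ∀ (ρ : Fin r → (V ⊕ ℕ × (ι ⊕ ℕ × κ)) ⊕ ι) (t : ℕ), Nat.card ι + 1 ≤ t →
    (∀ i u, ρ i = Sum.inl u → u ∈ Nam τ) →
    W (sub ρ fun i => Sum.inr (x i)) = W (sub ρ fun i => Sum.inr (t, Sum.inl i))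

/-- `y` is like a leaf of a star which is not named. -/
structure LikeY {r : ℕ} {K V ι κ : Type} (W : St r K (V ⊕ ℕ × (ι ⊕ ℕ × κ)))
    (τ : Fin r → V ⊕ (ι ⊕ κ)) (y : κ → ℕ × (ι ⊕ ℕ × κ)) : Prop where
  inj : Injective y
  far : ∀ i, Nat.card ι + 1 ≤ (y i).1
  typ : ∀ (ρ : Fin r → (V ⊕ ℕ × (ι ⊕ ℕ × κ)) ⊕ κ) (t : ℕ), Nat.card ι + 1 ≤ t →
    (∀ i u, ρ i = Sum.inl u → u ∈ Nam τ) →
    W (sub ρ fun i => Sum.inr (y i)) = W (sub ρ fun k => Sum.inr (t, Sum.inr (0, k)))

/-- STB1 (200 lines, pure combinatorics). Let `x` be like a centre and `y` like a leaf, and suppose that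
whenever both have points in a star `s` then the points of `y` in `s` are in leaves which contain no
point of `x`, and that the points of `x` and `y` are not all in one star. Then the value is `γ`.

Proof. First suppose that no star meets both. Let `σ`, `π` permute the stars and leaves such that the
(at most `card ι`) stars of `x` go to the stars `0, ..., m-1`, `m ≤ card ι`, the leaves of `x` get
numbers `< card ι`, and the stars of `y` and the star `card ι` are fixed. Then
`W(τ[x, y]) = W(τ[x', y])` (`inv`), `x'` consists of named points, so `= W(τ[x', leaf 0 of t])` (`y` is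
like a leaf; `t` large) `= W(τ[x', leaf 0 of the star card ι])` (`inv`, exchange `t` and `card ι`)
`= W(τ[x, leaf 0 of the star card ι])` (`inv`, back) `= W(τ[centre of t, leaf 0 of the star card ι])`
(`x` is like a centre) `= γ` (`off`).
In general let `s₁, ..., s_m` be the stars that meet both, `s'₁, ..., s'_m` fresh stars (different, not
named, not met by `x` or `y`). Apply `dec` to `z = τ[x, y]`, `s₁`, `s'₁`, `L` = the numbers of the leaves
which contain points of `y` in `s₁` (the number of points of `z` in the star `s₁` is
`< card ι + card κ` since `x`, `y` are injective and not all their points are in `s₁`), then for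
`s₂`, ... The result is `τ[x, y']`, where `y'` arises from `y` by the permutation of the stars which
exchanges all `s_j` and `s'_j`, so `y'` is like a leaf by `inv` (the named points are fixed). Now no star
meets both `x` and `y'`. (Induction on the number of common stars.) -/
def S_STB1 : Prop :=
  ∀ (r : ℕ) (K V ι κ : Type) [Finite ι] [Finite κ] (W : St r K (V ⊕ ℕ × (ι ⊕ ℕ × κ)))
    (τ : Fin r → V ⊕ (ι ⊕ κ)) (α γ : K), StarConf W τ α γ →
    ∀ (x : ι → ℕ × (ι ⊕ ℕ × κ)) (y : κ → ℕ × (ι ⊕ ℕ × κ)), LikeX W τ x → LikeY W τ y →
      (∀ i k, (x i).1 = (y k).1 → ∃ l j, (y k).2 = Sum.inr (l, j) ∧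
        ∀ i' j', x i' ≠ ((y k).1, Sum.inr (l, j'))) →
      (¬ ∃ s, (∀ i, (x i).1 = s) ∧ ∀ k, (y k).1 = s) →
      W (Sum.map id (Sum.elim x y) ∘ τ) = γ

/-- STB2 (300 lines, pure combinatorics), hypothesis `S_STB1`. Decoding. Let `p = card ι`,
`q = card κ` (both positive, otherwise `diag` and `off` give `α = γ`), `C = p * p + p * q`.
Let `L e`, `e ∈ ℕ`, be numbers which grow so fast that `(L 0 - p) / q > C` and
`(L (e+1) - p) / q > p + q * L e` (integer parts). The stars `p + 1 + e`, `e ∈ ℕ`, are not named. For
`c : ℕ → Bool` let `A c` = named points (`Nam τ`, finite) and, for each `k`, the star number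
`p + 1 + e`, `e = 2 k + (c k)`, with the leaves `l < L e`.
For `x` like a centre, with points in `A c`, let `deg x` be the maximal number of pairwise disjoint `y`
with points in `A c` which are like leaves and linked to `x`: `W(τ[x, y]) = α`.
(1) If `deg x > C` then there is `e` with `(L e - p) / q ≤ deg x ≤ p + q * L e`, where the star
`p + 1 + e` is in `A c`. Proof: among more than `C` pairwise disjoint linked `y` there is one which
contains no point of the centres of the (at most `p`) stars of `x` and no point of the (at most `p`)
leaves which meet `x`. By STB1 all points of `x` and `y` are in one star `p + 1 + e`. By STB1 every linked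
`y'` meets this star (otherwise no common star), so `deg x ≤ p + q * L e`. Moving `y` by permutations of
the leaves of this star which fix the at most `p` leaves that meet `x` (`y` meets at most `q` leaves)
gives at least `(L e - p) / q` pairwise disjoint linked ones, which are like leaves by `inv`.
(2) If the star `p + 1 + e` is in `A c` then its centre is linked to its `L e` leaves (`diag`), so
`deg > C`. Hence `e` occurs in `A c` iff there is `x` like a centre in `A c` with
`(L e - p) / q ≤ deg x ≤ p + q * L e`. All these notions are preserved by maps `f` as in `Rigid`. -/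
def S_STB2 : Prop :=
  ∀ (r : ℕ) (K V ι κ : Type) [Finite ι] [Finite κ] (W : St r K (V ⊕ ℕ × (ι ⊕ ℕ × κ)))
    (τ : Fin r → V ⊕ (ι ⊕ κ)) (α γ : K), α ≠ γ → StarConf W τ α γ → Rigid W

/-- STAR (assembly, helper71): from STA, STB2, PERF, COM by induction on `n`. -/
def S_STAR : Prop := ∀ (r : ℕ) (K : Type) [Finite K] (n : ℕ), Star r K n

/-! ### E. blocks in permutation groups -/

/-- INT (200 lines, pure permutation groups). If `b` is exchanged with `b'` and `B` is good then the
part of `b` inside the range of `B` is exchanged with the corresponding part of `b'`, and so is the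
complementary part.

Proof. Let `b_j` (`j ∈ ℕ`) be copies of `b` (exchanged with `b` by `s_j ∈ G`), disjoint from `B`, `b`, `b'`.
It is enough to prove the claim for `b_j` instead of `b'`: conjugate with the swap of `b'` and `b_j`,
which is in `G` (`= s s_j s` for the swap `s` of `b` and `b'`) and fixes `b`. So let `b'` be disjoint from
`B`. Let `B_l` be a copy of `B` (swap `t_l ∈ G`), disjoint from `b`, `b'`, `B` and from a given finite
set, and `I = {i | b i = B (k i)}`. On the triple `{b' i, b i, B_l (k i)}` with `i ∈ I`, `s` exchanges
the first two and `t_l` the last two points; outside these triples `s` and `t_l` have disjoint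
supports. So the commutator `c_l = s t_l s t_l` is the product of 3-cycles on the triples, the same
direction for all `i ∈ I`, and the identity elsewhere. For two copies `B_l`, `B_m` disjoint from each
other a suitable product of `c_l^{±1}`, `c_m^{±1}` is the product of the double transpositions
`(b i, b' i)(B_l (k i), B_m (k i))`, `i ∈ I` (with `x = b i`, `y = b' i`: two 3-cycles on `x, y, u` and
`x, y, v` generate the alternating group of `x, y, u, v`; for instance for `a = (x y u)`, `b = (x y v)` the
product `a b` or `a b⁻¹` ... is a double transposition; find the word by `decide`). As the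
copies can avoid any finite set and `G` is closed, the product of the transpositions `(b i, b' i)`,
`i ∈ I`, is in `G`. For the complement multiply with `s`. -/
def S_INT : Prop :=
  ∀ (Ω ι κ : Type) [Finite ι] [Finite κ] (G : Subgroup (Equiv.Perm Ω)), Closed G →
    ∀ (b b' : ι → Ω) (B : κ → Ω), Good G b → Good G B → (∀ i j, b i ≠ b' j) → Sw G b b' →
    ∀ I : Set ι, (∀ i, i ∈ I ↔ ∃ k, b i = B k) →
      Sw G (fun i : I => b i) (fun i : I => b' i) ∧
      Sw G (fun i : (Iᶜ : Set ι) => b i) (fun i : (Iᶜ : Set ι) => b' i)

open Classical in
/-- The type `p` is connected over `F`: for each proper nonempty part `I` of the coordinates there is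
a term over `F` which shows that `I` and its complement are not independent. -/
def Conn {r : ℕ} {K V ι : Type} [Finite K] (M : St r K V) (F : Set V)
    (p : Ultrafilter (ι → V)) : Prop :=
  ∀ I : Set ι, I.Nonempty → Iᶜ.Nonempty → ∃ z : Fin r → V ⊕ ι, (∀ i a, z i = Sum.inl a → a ∈ F) ∧
    lim p (fun x => M (sub z x)) ≠
    lim p fun x => lim p fun x' => M (sub z fun j => if j ∈ I then x j else x' j)

/-- BND (250 lines), hypotheses `S_SYM`, `S_INT`, `S_PERF`. The size of the free types connected over a
finite set is bounded.

Proof. Otherwise there are numbers `n 0 < n 1 < ...` and free connected types `p k` on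
`Fin (n k) → V`. Let `S = ℕ × ℕ`, `ι (i, k) = Fin (n k)`, types `p k`, `P` the product of SYM and
`W = Ext M P`. We show `Rigid W`. Named points: `F`. `A c` = `F` and the blocks `(i, k)` for all `i` and
all `k` of the form `2 m + (c m)`, `m ∈ ℕ`. By SYM the exchange of two blocks `(i, k)`, `(j, k)` is an
automorphism of `W`. Consider the group `G_c` of the automorphisms over `F` of the structure induced on
`A c`. All blocks `(i, k)` in `A c` are good. Let a minimal good tuple be a nonempty good tuple such
that no good tuple has a nonempty range properly contained in its range. Blocks are minimal: if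
`B` is good with nonempty range properly contained in the block `(i, k)`, then by INT the part `I` of the
block is exchanged with the part `I` of the block `(j, k)`; evaluating terms over `F` (any order of
the blocks) this contradicts `Conn` for `I`. Conversely if `B` is a minimal good tuple then, since
points of `F` are in no good tuple, `B` meets a block `b`; by INT (with the roles exchanged) the part of
`B` in the block is good, so `B` is contained in the block `b`, and then equal to it as `b` is minimal. So the sizes of the
minimal good tuples of `G_c` are the numbers `n k`, `k = 2 m + (c m)`. A map `f` as in `Rigid` gives an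
isomorphism of the structures on `A c` and `A d` over `F`, so these sets of numbers are equal, and
`c = d`. By PERF `M` is `Many`. (It may be convenient to work with the subtype `A c`.) -/
def S_BND : Prop :=
  ∀ (r : ℕ) (K : Type) [Finite K], (∀ n, Comm r K n) →
    ∀ (V : Type) [Countable V] [Infinite V] (M : St r K V), ¬ Many M →
    ∀ F : Finset V, ∃ b : ℕ, ∀ (n : ℕ) (p : Ultrafilter (Fin n → V)), Free p →
      Conn M (F : Set V) p → n ≤ b

/-! ### F. finitely many types -/

/-- FRP (80 lines, only ultrafilters). The free part of a family of tuples. `T` is a system of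
representatives, for the relation of being equal for almost all `k`, of the coordinates that are not almost
everywhere constant. -/
def S_FRP : Prop :=
  ∀ (J ρ V : Type) [Finite ρ] (U : Ultrafilter J) (h : J → ρ → V),
    ∃ (T : Set ρ) (e : ρ → V ⊕ T), Free (U.map fun k (t : T) => h k t) ∧
      ∀ᶠ k in U, ∀ i, h k i = Sum.elim id (fun t : T => h k t) (e i)

/-- FAM (120 lines), hypotheses `S_STAR`, `S_FRP`. Finitely many free types on `n` coordinates up to
`Meq`.

Proof. Otherwise there are free types `θ k`, `k ∈ ℕ`, pairwise not `Meq`. Let `U` be a nonprincipal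
ultrafilter on `ℕ` and `θ = U.bind θ`, free. At most one `θ k` is `Meq` to `θ`, so for almost all `k`
there is a term `z k : Fin r → V ⊕ Fin n` with `Ext M (θ k) (z k) ≠ Ext M θ (z k)`. The pattern of
`z k` (which places are variables, and which) is constant for almost all `k`; the other places form
a tuple `h k : ρ → V`. By FRP almost all `h k` are given by a fixed map `e : ρ → V ⊕ T` and
`g k = h k` restricted to `T`, `U.map g` free. So there is `τ : Fin r → V ⊕ (T ⊕ Fin n)` such that
`z k` is `τ` with `T` replaced by `g k`, for almost all `k`. STAR says that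
`lim U fun k => Ext M (θ k) (z k)` is equal to `lim U fun j => lim U fun k => lim (θ k) (τ[g j, y])`, which
is `lim U fun j => Ext M θ (z j)` by `lim_bind`. But `Ext M (θ k) (z k) ≠ Ext M θ (z k)` for almost
all `k`. -/
def S_FAM : Prop :=
  ∀ (r : ℕ) (K : Type) [Finite K], (∀ n, Star r K n) →
    ∀ (V : Type) [Countable V] [Infinite V] (M : St r K V), ¬ Many M →
    ∀ n : ℕ, ∃ (m : ℕ) (rep : Fin m → Ultrafilter (Fin n → V)), (∀ c, Free (rep c)) ∧
      ∀ p : Ultrafilter (Fin n → V), Free p → ∃ c, Meq M p (rep c)

/-- `F` contains `r + 1` disjoint generic realisations of each free type with at most `r`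
coordinates. -/
def Rich {r : ℕ} {K V : Type} [Finite K] (M : St r K V) (F : Finset V) : Prop :=
  ∀ n ≤ r, ∀ p : Ultrafilter (Fin n → V), Free p → ∃ b : Fin (r + 1) → Fin n → V,
    (∀ a i, b a i ∈ F) ∧ (∀ a a' i i', b a i = b a' i' → a = a' ∧ i = i') ∧ ∀ a, Gen M p (b a)

/-- RICH (200 lines), hypotheses `S_SYM`, `S_FAM` (applied). Every few structure has a rich extension by
finitely many points.

Proof. By FAM choose for each `n ≤ r` representatives of the finitely many free types on `n`
coordinates. Let `S` be the finite set of all `(n, c, a)`, `n ≤ r`, `c` a representative, `a < r + 1`;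
block `(n, c, a)` has the index set `Fin n` and the type `rep c`. `N = Ext M P` for the product `P` of SYM,
with the new points `Σ s, Fin (n s)` identified with `Fin k`; `F` = the new points. A free type `p'` on
`Fin n → V ⊕ Fin k` is concentrated on tuples in `V`, so it is the lift of a free type `p` over `V`; let
`c` be the representative with `Meq M p (rep c)`. Claim: the block `b = (n, c, a)` satisfies
`Gen N p' b`. Let `z` be a term with parameters outside `b`. `N (sub z b)` is `itl` over the other blocks
of `z` and then `b` as the innermost one; for fixed values of the other blocks the innermost limit is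
the limit along `rep c`, so also the limit along `p` (`Meq`). `lim p' (N (sub z x))` is the limit along
`p` (outermost), then the other blocks. These are equal by the first conclusion of SYM for the
family with an additional block of type `p` (`Option S`). -/
def S_RICH : Prop :=
  ∀ (r : ℕ) (K : Type) [Finite K], (∀ n, Comm r K n) →
    ∀ (V : Type) [Countable V] [Infinite V] (M : St r K V), ¬ Many M →
    (∀ n : ℕ, ∃ (m : ℕ) (rep : Fin m → Ultrafilter (Fin n → V)), (∀ c, Free (rep c)) ∧
      ∀ p : Ultrafilter (Fin n → V), Free p → ∃ c, Meq M p (rep c)) →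
    ∃ (k : ℕ) (N : St r K (V ⊕ Fin k)) (F : Finset (V ⊕ Fin k)), Loc M N ∧
      (∀ x : Fin r → V, N (Sum.inl ∘ x) = M x) ∧ Rich N F

/-- STEP (250 lines), hypothesis `S_SYM`. If a free extension of a connected type shows a dependence
over `F` then some part of it is a proper connected extension.

Proof. For `K' ⊆ κ` let `sep K'` be the statement: there is a term `z` over `F` with variables in
`ι ∪ K'` such that `lim_w M(z[w]) ≠ lim_w lim_w' M(z[w on ι, w' on K'])` (limits along `P`). Let
`K'` be a minimal set with `sep K'`; it is nonempty. Suppose that the restriction of `P` to `ι ∪ K'` is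
not connected: there is a proper nonempty part `I` of `ι ∪ K'` with
(*) `lim_w M(z[w]) = lim_w lim_w' M(z[w on I, w' off I])` for all terms `z` over `F` with variables in
`ι ∪ K'`. As `p` is connected, `ι ⊆ I` or `ι` is disjoint from `I`. By commutativity (*) holds also with
the roles of `I` and its complement exchanged, so let `ι ⊆ I`. Let `B` be the complement of `I`, so
`∅ ≠ B ⊆ K'`, and `A = K' \ B`, `I = ι ∪ A`. `sep A` fails by minimality:
(**) `lim_w M(z[w]) = lim_w lim_w' M(z[w on ι, w' on A])` for terms `z` over `F` with variables in `ι ∪ A`.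
Let `z` be a term for `sep K'`. Left side: by (*) it is `lim_w lim_w' M(z[w on ι, w on A, w' on B])`. At
most `r` variables from `B` occur in `z`. `F₀` contains `r + 1` disjoint generic realisations of the
restriction of `P` to these; one of them, `b'`, contains no parameter of `z`. So the inner limit is
`M(z[w on ι, w on A, b'])`, and by (**) we get `lim_w lim_w' M(z[w on ι, w' on A, b'])`, which is
`lim_w lim_w' lim_w'' M(z[w on ι, w' on A, w'' on B])`. Right side `lim_w lim_w' M(z[w on ι, w' on K'])`:
exchange the limits, replace `w on ι` by a generic realisation `b ∈ F₀` which contains no parameter of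
`z`: `lim_w' M(z[b, w' on K'])`. By (*) for this term (over `F`):
`lim_w' lim_w'' M(z[b, w' on A, w'' on B]) = lim_w' lim_w'' lim_w M(z[w, w' on A, w'' on B])`. By SYM the
three limits can be exchanged, so both sides are equal, a contradiction. -/
def S_STEP : Prop :=
  ∀ (r : ℕ) (K : Type) [Finite K], (∀ n, Comm r K n) →
    ∀ (V : Type) [Countable V] [Infinite V] (M : St r K V), ¬ Many M →
    ∀ F₀ F : Finset V, Rich M F₀ → F₀ ⊆ F →
    ∀ (ι κ : Type) [Finite ι] [Finite κ] (P : Ultrafilter (ι ⊕ κ → V)), Free P →
      Conn M (F : Set V) (P.map fun w => w ∘ Sum.inl) →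
      (∃ z : Fin r → V ⊕ (ι ⊕ κ), (∀ i a, z i = Sum.inl a → a ∈ F) ∧
        lim P (fun w => M (sub z w)) ≠
        lim P fun w => lim P fun w' => M (sub z (Sum.elim (w ∘ Sum.inl) (w' ∘ Sum.inr)))) →
      ∃ κ' : Set κ, κ'.Nonempty ∧
        Conn M (F : Set V) (P.map fun w (j : ι ⊕ κ') => w (Sum.map id (fun k => (k : κ)) j))

/-- PROC (250 lines), hypotheses `S_STAR`, `S_FRP`, `S_STEP`, `S_BND` (the conclusions of the last two
for `M` are used). Every free type with one coordinate extends to a free type almost all of whose
realisations in `V` are generic.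

Proof. Let `F₀` be rich. For a finite `F ⊇ F₀` there is a connected (over `F`) free type `p` on
`Fin n → V` with a coordinate `i₀` such that `p.map (· i₀) = u`: for `n = 1` it is `u` itself, and by
BND there is one with `n` maximal. Suppose that for all `F` the set of `b` with `Gen M p b` is not
in `p`. Then for almost all `b` there is a term `z_b : Fin r → V ⊕ Fin n` with parameters outside `b` and
`M (sub z_b b) ≠ lim p (M (sub z_b x))`. The pattern of `z_b` is almost everywhere constant; the
parameters form tuples `h b`; by FRP (with `J = Fin n → V`, `U = p`) they are almost everywhere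
given by constants and by the coordinates in `T`, and `P = p.map fun b => Sum.elim b (h b on T)` is a
free type on `Fin n ⊕ T → V` (the parameters are different from the coordinates of `b`), with a term
`z : Fin r → V ⊕ (Fin n ⊕ T)` and (using `Comm` for the second line)
`lim P (M (sub z w)) = lim_b M (sub z_b b)`, different from
`lim_b lim_x M (sub z_b x) = lim_{w ∈ P} lim_{w' ∈ P} M (sub z (w on Fin n, w' on T))`.
So (by STEP and the maximality of `n`) no term over `F` separates like this, but the term `z`
with parameters `f` (outside `F` in part) does. Do this for `F_0 = F₀`,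
`F_{k+1} = F_k ∪ (parameters of z_k)`, and get `n_k`, `T_k`, `P_k`, `z_k`, `f_k`. Almost everywhere along a
nonprincipal ultrafilter `U` on `ℕ` the pattern of `z_k` is the same in the following sense: there are
`s` and `π : Fin r → Option (Fin s)` and injections `a_k : Fin s → Fin (n_k) ⊕ T_k` such that the place
`i` of `z_k` is the variable `a_k t` if `π i = some t` and the parameter `f_k i` if `π i = none`. Let
`θ_k = P_k.map (· ∘ a_k)` and let `θ'_k` be the decoupled type
`P_k.bind fun w => P_k.map fun w' => Sum.elim (w ∘ inl) (w' ∘ inr) ∘ a_k`; both are free types on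
`Fin s → V`. Apply FRP to `f_k` and get `g_k` and a term `τ : Fin r → V ⊕ (T ⊕ Fin s)`, and apply STAR to
`(g_k, θ_k)` and to `(g_k, θ'_k)`. The left sides are the limits of `α_k = lim (θ_k) (z_k)` and of
`β_k = lim (θ'_k) (z_k)`, with `α_k ≠ β_k` for all `k`. The right sides are equal: for fixed `j` and all
`k > j` the term `τ[g_j, ·]` is (for almost all `j`) over `F_k`, so it does not separate `θ_k` and
`θ'_k`. Contradiction. -/
def S_PROC : Prop :=
  ∀ (r : ℕ) (K : Type) [Finite K], (∀ n, Comm r K n) → (∀ n, Star r K n) →
    ∀ (V : Type) [Countable V] [Infinite V] (M : St r K V), ¬ Many M →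
    (∀ F : Finset V, ∃ b : ℕ, ∀ (n : ℕ) (p : Ultrafilter (Fin n → V)), Free p →
      Conn M (F : Set V) p → n ≤ b) →
    ∀ F₀ : Finset V, Rich M F₀ → ∀ u : Ultrafilter V, (∀ a, ∀ᶠ v : V in u, v ≠ a) →
    ∃ (n : ℕ) (p : Ultrafilter (Fin n → V)) (i₀ : Fin n), Free p ∧ (p.map fun x => x i₀) = u ∧
      ∀ᶠ b : Fin n → V in p, Gen M p b

/-! ### G. cellular structures -/

/-- The standard domain: `d` points and `m` families of tuples of length `sz i`, indexed by `ℕ`. -/
abbrev Dom (d m : ℕ) (sz : Fin m → ℕ) : Type := Fin d ⊕ (Σ i : Fin m, ℕ × Fin (sz i))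

/-- The permutations of the families act on the domain. -/
def act {d m : ℕ} {sz : Fin m → ℕ} (σ : Fin m → Equiv.Perm ℕ) : Dom d m sz → Dom d m sz :=
  Sum.map id fun w => ⟨w.1, (σ w.1 w.2.1, w.2.2)⟩

/-- `M` is cellular: its points are finitely many points and finitely many families of disjoint
tuples such that all permutations of the tuples of each family are automorphisms. -/
def Cellular {r : ℕ} {K V : Type} (M : St r K V) : Prop :=
  ∃ (d m : ℕ) (sz : Fin m → ℕ) (e : V ≃ Dom d m sz), ∀ (σ : Fin m → Equiv.Perm ℕ)
    (x : Fin r → V), M (fun i => e.symm (act σ (e (x i)))) = M x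

/-- CELL0 (300 lines), hypothesis `S_INT`. Assembly of the cells.

Proof. `G = Aut M ∅`. If `p` is free and `b`, `b'` are disjoint generic realisations of `p` then the exchange
of `b` and `b'` is in `G`: for a tuple of points let `z` be the term with the entries in `b`, `b'` as
variables; `M(z[b, b']) = lim_x lim_y M(z[x, y]) = lim_y lim_x M(z[x, y]) = M(z[b', b])` by `Gen` (twice,
note that `Gen` allows all parameters outside `b`) and `Comm`. So if `Gen M p b` holds for almost all `b`
then almost all `b` are good tuples. Hence by the hypothesis the set `D` of the points which are in no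
good tuple is finite (otherwise take a nonprincipal ultrafilter `u` on `D`). By INT intersections and
differences of ranges of good tuples are empty or ranges of good tuples. So each point `v ∉ D` is in a
unique minimal range of a good tuple, its atom, and the atoms partition the complement of `D`. Elements
of `G` permute the atoms. Call two atoms equivalent if they are equal or some enumerations of them are
exchanged by `G` (an equivalence relation; each class is infinite as atoms are good). There are
finitely many classes: otherwise choose points `v_n` in atoms of pairwise different classes and a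
nonprincipal ultrafilter `u` on the set of these points; by the hypothesis there are `n ≠ m` and disjoint
good tuples `b ∋ v_n`, `b' ∋ v_m` (in the same place) which are exchanged; the atom of `v_n` is
contained in the range of `b` and by INT it is exchanged with a part of `b'`, which is the atom of
`v_m` (the exchange is in `G` and maps `v_n` to `v_m`), a contradiction. In each class `i` fix an enumeration of one atom `a_0` and
enumerate the other atoms `a_1, a_2, ...` of the class by enumerations exchanged with `a_0`; then any
two `a_n`, `a_m` are exchanged by `G` (conjugation). So all permutations of the atoms of each class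
that move finitely many atoms are in `G`, and then all permutations, since `G` is closed. -/
def S_CELL0 : Prop :=
  ∀ (r : ℕ) (K : Type) [Finite K], (∀ n, Comm r K n) →
    ∀ (V : Type) [Countable V] [Infinite V] (M : St r K V), ¬ Many M →
    (∀ u : Ultrafilter V, (∀ a, ∀ᶠ v : V in u, v ≠ a) →
      ∃ (n : ℕ) (p : Ultrafilter (Fin n → V)) (i₀ : Fin n), Free p ∧ (p.map fun x => x i₀) = u ∧
        ∀ᶠ b : Fin n → V in p, Gen M p b) →
    Cellular M

/-- CELL1 (150 lines, elementary). Removing finitely many points from a cellular structure. The tuples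
which contain a removed point are broken: their remaining points are added to the finite part;
infinitely many tuples of each family remain, renumber them. -/
def S_CELL1 : Prop :=
  ∀ (r k : ℕ) (K V : Type) (N : St r K (V ⊕ Fin k)), Cellular N →
    Cellular fun x : Fin r → V => N fun i => Sum.inl (x i)

/-- FQ (200 lines, Ramsey type argument, no earlier parts). A structure with infinitely many values
is `Rigid`.

Proof. Choose tuples `t k : Fin r → V`, `k ∈ ℕ`, with pairwise different values `κ k = M (t k)`. Let `U` be
a nonprincipal ultrafilter on `ℕ`. Write `t k` as in FRP (prove it or import it): almost everywhere the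
coordinates are constants or the coordinates in `T`, `U.map (t restricted to T)` free; `T` is nonempty,
since otherwise `t k` would be almost everywhere constant. Let `R` be the finite set of these
constants. For a sequence `k_0 < k_1 < ...` let `t_a = t (k_a)`; passing to a subsequence in a `U`-large
set the tuples `t_a` have entries in `R` and in pairwise disjoint finite sets. We choose `k_0, k_1, ...`
such that `(+)` for all `a` the value `κ (k_a)` is not taken by `M` on any tuple of points of `R` and of
`t_b`, `b ≠ a`. Then let `A c` = the points of `R` and of `t_b` for all `b` of the form `2 m + (c m)`,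
named points: none (`s = ∅`); the set of values of `M` on tuples in `A c` contains `κ (k_b)` iff
`b = 2 m + (c m)` for some `m`, and it is preserved by `f` as in `Rigid`, so `c = d`.
For `(+)`: a pattern is a way to form a tuple from entries of `R` and of `t_{b_1}, ..., t_{b_m}`,
`b_1 < ... < b_m`, `m ≤ r` (finitely many patterns `ρ`). For each pattern `ρ` and each position
`j ≤ m` let `Q_{ρ,j}(b_0 < ... < b_m)` be: the value of `M` on the tuple formed by `ρ` from the `t_{b_i}`,
`i ≠ j`, is `κ (b_j)`. Its iterated `U`-limit (first `b_0`, ..., last `b_m`) is false: otherwise for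
`U`-almost all `b_0`, ... `b_{j-1}` and `U`-many, so two different, `b_j`, `b'_j`, the iterated limit
over `b_{j+1}, ..., b_m` of the statement holds for both; intersecting, the same value would be both
`κ (b_j)` and `κ (b'_j)`. Now choose `k_0 < k_1 < ...` inductively in `U`-large sets such that the
negation of each `Q_{ρ,j}` has, for all `i ≤ m` and all choices of the first `i` elements in the
sequence, a true iterated limit over the remaining ones (the standard proof of the theorem of Ramsey
by ultrafilters). Alternatively use the infinite Ramsey theorem for `(r+1)`-element sets if you find it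
in the library. -/
def S_FQ : Prop :=
  ∀ (r : ℕ) (K V : Type) [Countable V] [Infinite V] (M : St r K V), (range M).Infinite → Rigid M

/-! ### H. the final theorem -/

/-- MAIN (assembly, helper71): from COM, STAR, FAM, RICH, BND, STEP, PROC, CELL0, CELL1, PERF, FQ. -/
def S_MAIN : Prop :=
  ∀ (r : ℕ) (K V : Type) [Countable V] [Infinite V] (M : St r K V), ¬ Many M → Cellular M

/-- Every finite piece of `N` which contains `F` embeds in `M` over `F`. -/
def LocOver (F : Finset ℕ) {r : ℕ} {K : Type} (M N : St r K ℕ) : Prop :=
  ∀ X : Finset ℕ, ∃ e : ℕ → ℕ, InjOn e X ∧ (∀ a ∈ F, e a = a) ∧ (∀ a ∈ X, e a ∈ F → a ∈ F) ∧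
    ∀ x : Fin r → ℕ, (∀ i, x i ∈ X) → M (e ∘ x) = N x

/-- NAM (250 lines), hypotheses `S_MAIN`, `S_PERF0`. The version with finitely many named points.

Proof. Let `V = {v // v ∉ F}` and `K' = (Fin r → Option F) → K`. Let `M' : St r K' V` be
`M' x t = M fun i => match t i with | none => x i | some a => a`. If `M'` is cellular then so is `M`
(add the points of `F` to the finite part; `M` is given by `M'`). Otherwise `M'` is `Many` by MAIN: a
family `g' c : St r K' ℕ`, transport it to `V ≃ ℕ`. Define `g c : St r K ℕ` by
`g c y = g' c x t` with `t i = some (y i)`, `x i =` some default point if `y i ∈ F`, and `t i = none`,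
`x i = y i` otherwise. (In `M'` the value `M' x t` does not depend on `x i` for `t i ≠ none`; this is
inherited by `g' c` as `Loc M' (g' c)`.) Then `LocOver F M (g c)`, `g c x` is locally constant in `c`, and
if `g c`, `g d` are isomorphic over `F` then `g' c`, `g' d` are isomorphic, so `c = d`. Apply PERF0 with
the named points of `F` (constant tuple). -/
def S_NAM : Prop :=
  ∀ (r : ℕ) (K : Type) (M : St r K ℕ) (F : Finset ℕ), Cellular M ∨
    ∃ g : (ℕ → Bool) → St r K ℕ, (∀ x, IsLocallyConstant fun c => g c x) ∧
      (∀ c, LocOver F M (g c)) ∧ ∀ c d, Iso (g c) (g d) → c = d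

/-- FIN (250 lines, no earlier parts). The dichotomy for Borel classes of cellular structures.

Proof. For `(d, m, sz)` let `D₀ ⊆ Dom d m sz` be the finite set of the `inl a` and the `inr ⟨i, (n, j)⟩`
with `n < r`. A cellular structure on `Dom d m sz` (invariant under all `act σ`) is determined by its
restriction to tuples in `D₀`, since each `r`-tuple can be moved into `D₀` by some `act σ`. Countably
many `(d, m, sz)` and, for each with `Dom` infinite, a fixed bijection `e₀ : ℕ ≃ Dom d m sz`. Let `Y` be
the set of the functions `δ : (Fin r → D₀) → K` which extend to an invariant structure `N δ` (a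
closed set: finitely many equalities; `N δ x = δ (ψ x)` for a fixed function `ψ`) and whose
transport `N δ ∘ e₀` to `ℕ` is in `B` (a Borel set). If for some `(d, m, sz)` the set `Y` is uncountable
then apply `Pool.Agent.H565R2.FO2.perfect_of_uncountable` (file `Pool/Agent/H565R2/FO2/USec.lean`; or
`perfect_aux` there), with the countable index set of all maps `j : D₀ → ℕ` and
`J j δ = (N δ on tuples of points j a)`: isomorphic structures have the same set of values `J j δ`, `j`
arbitrary. It gives a continuous family of pairwise non-isomorphic structures. If all sets `Y` are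
countable then `B` has countably many isomorphism types. -/
def S_FIN : Prop :=
  ∀ (r : ℕ) (K : Type) [TopologicalSpace K] [PolishSpace K] [MeasurableSpace K] [BorelSpace K]
    (B : Set (St r K ℕ)), MeasurableSet B → (∀ M ∈ B, ∀ N, Iso M N → N ∈ B) →
    (∀ M ∈ B, Cellular M) →
    (∃ C : Set (St r K ℕ), C.Countable ∧ ∀ M ∈ B, ∃ N ∈ C, Iso N M) ∨
    (∃ g : (ℕ → Bool) → St r K ℕ, Continuous g ∧ (∀ c, g c ∈ B) ∧
      ∀ c d, Iso (g c) (g d) → c = d)

/-- CLS (assembly, helper71): from NAM and FIN. -/
def S_CLS : Prop :=
  ∀ (r : ℕ) (K : Type) [TopologicalSpace K] [PolishSpace K] [MeasurableSpace K] [BorelSpace K]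
    (B : Set (St r K ℕ)), MeasurableSet B → (∀ M ∈ B, ∀ N, Iso M N → N ∈ B) →
    (∀ M ∈ B, ∃ F : Finset ℕ, ∀ N, LocOver F M N → N ∈ B) →
    (∃ C : Set (St r K ℕ), C.Countable ∧ ∀ M ∈ B, ∃ N ∈ C, Iso N M) ∨
    (∃ g : (ℕ → Bool) → St r K ℕ, Continuous g ∧ (∀ c, g c ∈ B) ∧
      ∀ c d, Iso (g c) (g d) → c = d)

end Pool.Agent.L7h71.UN
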